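import Pool.Agent.helper26.T5.SpecH
import Pool.Agent.helper69.T5.AIDL
import Pool.Agent.helper96.FT.A4a

set_option autoImplicit false

/-! Row t5:HID (MP_16912e_nt): the generator of the fifth power outside `f` -/

namespace Pool.Agent.helper26.T5

open Finset NumberField Pool.Agent.helper3.FT Pool.Agent.helper47.RA Pool.Agent.T5

section abstractpart

variable {R : Type} [CommRing R] [IsDomain R] {α α' γ γ' u u' v v' θ θ' φ φ' Z Λ b g : R}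

/-- `a ā = (g)` -/
theorem HID_aa (h : AIDL_Rel α α' γ γ' u u' v v' θ θ' φ φ' Z Λ) (hZ : Z = b * g)
    (hM : Ideal.span ({α, α', γ, γ', g, b * Λ ^ 2} : Set R) = ⊤) :
    Ideal.span ({α, γ', g} : Set R) * Ideal.span ({α', γ, g} : Set R) = Ideal.span {g} := by
  apply le_antisymm
  · rw [Ideal.mul_le]
    intro r hr s hs
    obtain ⟨x, y, z, rfl⟩ := (AIDL_mem3 _ _ _ _).1 hr
    obtain ⟨x', y', z', rfl⟩ := (AIDL_mem3 _ _ _ _).1 hs
    rw [Ideal.mem_span_singleton]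
    refine ⟨x * x' * (b ^ 2 * g * Λ) + x * y' * (b * v) + x * z' * α + y * x' * (b * v') + y * y' * (b * Λ ^ 2) +
      y * z' * γ' + z * (x' * α' + y' * γ + z' * g), ?_⟩
    have h1 := h.nα
    have h2 := h.e2
    have h3 := h.e2'
    have h4 := h.nγ
    rw [hZ] at h1 h2 h3 h4
    linear_combination (x * x') * h1 + (x * y') * h2 + (y * x') * h3 + (y * y') * h4
  · have h1 : Ideal.span {g} = Ideal.span {g} * Ideal.span ({α, α', γ, γ', g, b * Λ ^ 2} : Set R) := by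
      rw [hM, Ideal.mul_top]
    rw [h1, Ideal.span_mul_span', Ideal.span_le]
    rintro w ⟨z, hz, s, hs, rfl⟩
    rw [Set.mem_singleton_iff] at hz
    simp only [Set.mem_insert_iff, Set.mem_singleton_iff] at hs
    simp only [SetLike.mem_coe]
    rw [hz]
    rcases hs with hs | hs | hs | hs | hs | hs <;> rw [hs]
    · exact Ideal.mul_mem_mul_rev (AIDL_m1 _ _ _) (AIDL_m3 _ _ _)
    · exact Ideal.mul_mem_mul (AIDL_m3 _ _ _) (AIDL_m1 _ _ _)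
    · exact Ideal.mul_mem_mul (AIDL_m3 _ _ _) (AIDL_m2 _ _ _)
    · exact Ideal.mul_mem_mul_rev (AIDL_m2 _ _ _) (AIDL_m3 _ _ _)
    · exact Ideal.mul_mem_mul (AIDL_m3 _ _ _) (AIDL_m3 _ _ _)
    · have e : g * (b * Λ ^ 2) = γ * γ' := by rw [h.nγ, hZ]; ring
      rw [e]
      exact Ideal.mul_mem_mul_rev (AIDL_m2 _ _ _) (AIDL_m2 _ _ _)

theorem HID_N (h : AIDL_Rel α α' γ γ' u u' v v' θ θ' φ φ' Z Λ) : θ * θ' = Z ^ 5 := by
  apply mul_left_cancel₀ (pow_ne_zero 4 h.hΛ)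
  linear_combination (-(Λ ^ 2 * θ')) * h.e3 - (α ^ 2 * γ') * h.e3' + (α * α' + Z ^ 2 * Λ) * (γ * γ') * h.nα +
    (Z ^ 2 * Λ) ^ 2 * h.nγ

theorem HID_a5 (h : AIDL_Rel α α' γ γ' u u' v v' θ θ' φ φ' Z Λ) : α ^ 5 = θ ^ 2 * φ := by
  apply mul_left_cancel₀ (mul_ne_zero (pow_ne_zero 4 h.hΛ) (pow_ne_zero 2 h.hZ))
  linear_combination (-(α ^ 5) * (γ * γ' + Z * Λ ^ 2)) * h.nγ + (γ ^ 2 * α) * (α ^ 2 * γ' + Λ ^ 2 * θ) * h.e3 +
    (Λ ^ 2 * θ) ^ 2 * h.e4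

theorem HID_g5 (h : AIDL_Rel α α' γ γ' u u' v v' θ θ' φ φ' Z Λ) : γ' ^ 5 = θ * φ' ^ 2 := by
  apply mul_left_cancel₀ (mul_ne_zero (pow_ne_zero 2 h.hΛ) (pow_ne_zero 4 h.hZ))
  linear_combination (-(γ' ^ 5) * (α * α' + Z ^ 2 * Λ)) * h.nα + (γ' ^ 2 * α') ^ 2 * h.e3 +
    (Λ ^ 2 * θ) * (γ' ^ 2 * α' + Z ^ 2 * φ') * h.e4'

end abstractpart

theorem HID_noP {K : Type} [Field K] [NumberField K] (hARAM : ARAM_stmt) (Q : QF K) (f : ℕ) (t : Tpl)
    (α γ u v θ θ' : 𝓞 K) (ht : IsT t) (h : Els Q f t α γ u v θ θ') (P : Ideal (𝓞 K)) (hP : P.IsPrime) (p : ℕ)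
    (hp : p.Prime) (hpP : ∀ w : ℤ, (w : 𝓞 K) ∈ P ↔ (p : ℤ) ∣ w) (pZ : (p : ℤ) ∣ t.2.2.2) (pL : (p : ℤ) ∣ lam t)
    (pf : ¬ p ∣ f) (h1 : α ∈ P) (h2 : Q.cj α ∈ P) (h3 : γ ∈ P) (h4 : Q.cj γ ∈ P) : False := by
  have key : ((Q.D : ℤ) : 𝓞 K) ∈ P := by
    have e1 := P.sub_mem h1 h2
    have e2 := P.sub_mem h3 h4
    rw [Q.sub_cj, h.yα] at e1
    rw [Q.sub_cj, h.yγ] at e2
    have hδ : (2 * Q.ω - Q.t : 𝓞 K) ∈ P := by
      by_contra hn
      have e3 := (hP.mem_or_mem e1).resolve_right hn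
      have e4 := (hP.mem_or_mem e2).resolve_right hn
      exact AIDL_nk ht hp pf ((hpP _).1 e3) ((hpP _).1 e4)
    rw [← Q.delta_sq]
    exact P.pow_mem_of_mem hδ 2 (by norm_num)
  have pD : (p : ℤ) ∣ Q.D := (hpP _).1 key
  have a1 : (p : 𝓞 K) ∣ α := by
    apply hARAM K Q α (t.2.2.2 ^ 2 * lam t) p hp pD
    · rw [h.nα]
      push_cast
      ring
    · exact Dvd.dvd.mul_right (pow_dvd_pow_of_dvd pZ 2) _
  have a2 : (p : 𝓞 K) ∣ γ := by
    apply hARAM K Q γ (t.2.2.2 * lam t ^ 2) p hp pD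
    · rw [h.nγ]
      push_cast
      ring
    · exact Dvd.dvd.mul_left (pow_dvd_pow_of_dvd pL 2) _
  have b1 := AIDL_Ydvd Q p α a1
  have b2 := AIDL_Ydvd Q p γ a2
  rw [h.yα] at b1
  rw [h.yγ] at b2
  exact AIDL_nk ht hp pf b1 b2

theorem hid (hHSU : HSU) (hARAM : ARAM_stmt) : HID := by
  intro K _ _ Q f t α γ u v θ θ' hD ht hf hZ0 hΛ0 h b g hb hg hbg hcop hbf
  have hZne : t.2.2.2 ≠ 0 := hZ0.ne'
  have hΛne : lam t ≠ 0 := hΛ0.ne'
  have R := AIDL_rel Q f t α γ u v θ θ' hZne hΛne h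
  set Z : 𝓞 K := ((t.2.2.2 : ℤ) : 𝓞 K) with hZdef
  set Λ : 𝓞 K := ((lam t : ℤ) : 𝓞 K) with hΛdef
  have hZbg : Z = (b : 𝓞 K) * (g : 𝓞 K) := by
    rw [hZdef, hbg]
    push_cast
    rfl
  have gf : ∀ q : ℕ, q.Prime → q ∣ g → ¬ q ∣ f := by
    intro q hq h1 h2
    have h3 := Nat.dvd_gcd h1 h2
    rw [hcop] at h3
    exact hq.one_lt.ne' (Nat.dvd_one.1 h3)
  have hM : Ideal.span ({α, Q.cj α, γ, Q.cj γ, (g : 𝓞 K), (b : 𝓞 K) * Λ ^ 2} : Set (𝓞 K)) = ⊤ := by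
    by_contra hne
    obtain ⟨P, hPm, hle⟩ := Ideal.exists_le_maximal _ hne
    have hs : ∀ x ∈ ({α, Q.cj α, γ, Q.cj γ, (g : 𝓞 K), (b : 𝓞 K) * Λ ^ 2} : Set (𝓞 K)), x ∈ P :=
      fun x hx => hle (Ideal.subset_span hx)
    have hPp := hPm.isPrime
    have hgP : (((g : ℕ) : ℤ) : 𝓞 K) ∈ P := by
      have := hs (g : 𝓞 K) (by simp)
      rwa [Int.cast_natCast]
    obtain ⟨p, hp, hpP⟩ := AIDL_prime P (g : ℤ) (by exact_mod_cast (by omega : g ≠ 0)) hgP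
    have pg : p ∣ g := by exact_mod_cast (hpP _).1 hgP
    have pf := gf p hp pg
    have pL : (p : ℤ) ∣ lam t := by
      rcases hPp.mem_or_mem (hs ((b : 𝓞 K) * Λ ^ 2) (by simp)) with h1 | h1
      · exfalso
        have h2 : (((b : ℕ) : ℤ) : 𝓞 K) ∈ P := by rwa [Int.cast_natCast]
        have pb : p ∣ b := by exact_mod_cast (hpP _).1 h2
        exact pf (hbf p hp pb)
      · exact (hpP _).1 (hPp.mem_of_pow_mem 2 h1)
    have pZ : (p : ℤ) ∣ t.2.2.2 := by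
      rw [hbg]
      exact Dvd.dvd.mul_left (by exact_mod_cast pg) _
    exact HID_noP hARAM Q f t α γ u v θ θ' ht h P hPp p hp hpP pZ pL pf (hs _ (by simp)) (hs _ (by simp))
      (hs _ (by simp)) (hs _ (by simp))
  have ha := HID_aa R hZbg hM
  set a : Ideal (𝓞 K) := Ideal.span ({α, Q.cj γ, (g : 𝓞 K)} : Set (𝓞 K)) with hadef
  have hbar : Q.bar a = Ideal.span ({Q.cj α, γ, (g : 𝓞 K)} : Set (𝓞 K)) := by
    unfold QF.bar
    rw [hadef, Ideal.map_span]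
    congr 1
    rw [Set.image_insert_eq, Set.image_insert_eq, Set.image_singleton, Q.cj_cj, map_natCast]
  have hNa : Ideal.absNorm a = g := by
    have h1 := congrArg Ideal.absNorm ha
    rw [← hbar, map_mul, Q.absNorm_bar, h96_norm_q Q g] at h1
    have h2 : Ideal.absNorm a ^ 2 = g ^ 2 := by rw [pow_two (Ideal.absNorm a)]; exact h1
    exact Nat.pow_left_injective (by norm_num : 2 ≠ 0) h2
  have hane : a ≠ ⊥ := by
    intro h0
    rw [h0, Ideal.absNorm_bot] at hNa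
    omega
  -- the norm of theta
  have hNθ : Ideal.absNorm (Ideal.span {θ}) = (b * g) ^ 5 := by
    have h1 := HID_N R
    have h2 : θ * Q.cj θ = ((t.2.2.2 ^ 5 : ℤ) : 𝓞 K) := by
      rw [h1, hZdef]
      push_cast
      rfl
    have h3 := Q.absNorm_eq θ _ h2
    have h4 : t.2.2.2 ^ 5 = (((b * g) ^ 5 : ℕ) : ℤ) := by
      rw [hbg]
      push_cast
      ring
    rw [h4, Nat.abs_cast] at h3
    exact_mod_cast h3
  have hg5 : Q.cj γ ^ 5 = θ * Q.cj θ' ^ 2 := HID_g5 R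
  have ha5 : α ^ 5 = θ ^ 2 * θ' := HID_a5 R
  have hpow : a ^ 5 = Ideal.span {α ^ 5} ⊔ (Ideal.span {Q.cj γ ^ 5} ⊔ Ideal.span {(g : 𝓞 K) ^ 5}) := by
    have e : a = Ideal.span {α} ⊔ (Ideal.span {Q.cj γ} ⊔ Ideal.span {(g : 𝓞 K)}) := by
      rw [hadef, Ideal.span_insert, Ideal.span_insert]
    rw [e, hHSU, hHSU, Ideal.span_singleton_pow, Ideal.span_singleton_pow, Ideal.span_singleton_pow]
  have hle : Ideal.span {(b : 𝓞 K) ^ 5} * a ^ 5 ≤ Ideal.span {θ} := by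
    rw [hpow, Ideal.mul_sup, Ideal.mul_sup, Ideal.span_singleton_mul_span_singleton,
      Ideal.span_singleton_mul_span_singleton, Ideal.span_singleton_mul_span_singleton]
    refine sup_le ?_ (sup_le ?_ ?_)
    · rw [Ideal.span_singleton_le_span_singleton, ha5]
      exact ⟨(b : 𝓞 K) ^ 5 * θ * θ', by ring⟩
    · rw [Ideal.span_singleton_le_span_singleton, hg5]
      exact ⟨(b : 𝓞 K) ^ 5 * Q.cj θ' ^ 2, by ring⟩
    · rw [Ideal.span_singleton_le_span_singleton, ← mul_pow, ← hZbg, ← HID_N R]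
      exact Dvd.intro _ rfl
  obtain ⟨B, hB⟩ := Ideal.dvd_iff_le.2 hle
  have hNb : Ideal.absNorm (Ideal.span {(b : 𝓞 K) ^ 5}) = b ^ 10 := by
    rw [← Ideal.span_singleton_pow, map_pow, h96_norm_q Q b]
    ring
  have hNB : Ideal.absNorm B = b ^ 5 := by
    have h1 := congrArg Ideal.absNorm hB
    rw [map_mul, map_mul, map_pow, hNb, hNa, hNθ] at h1
    have h2 : (b * g) ^ 5 * Ideal.absNorm B = (b * g) ^ 5 * b ^ 5 := by
      rw [← h1]
      ring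
    exact Nat.eq_of_mul_eq_mul_left (by positivity) h2
  have hBb : Ideal.span {(b : 𝓞 K) ^ 5} ≤ B := by
    rw [Ideal.span_singleton_le_iff_mem]
    have h1 := Ideal.absNorm_mem B
    rw [hNB] at h1
    simpa using h1
  obtain ⟨A, hA⟩ := Ideal.dvd_iff_le.2 hBb
  have hB0 : B ≠ 0 := by
    intro h0
    rw [h0, Ideal.zero_eq_bot, Ideal.absNorm_bot] at hNB
    exact absurd hNB.symm (by positivity)
  refine ⟨a, A, hane, ?_, hNa, ?_, ?_⟩
  · intro q hq hd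
    have d1 := AIDL_Ydvd Q q _ (AIDL_dvd_of_span hd (AIDL_m1 α (Q.cj γ) (g : 𝓞 K)))
    have d2 := AIDL_Ydvd Q q _ (AIDL_dvd_of_span hd (AIDL_m2 α (Q.cj γ) (g : 𝓞 K)))
    have d3 := AIDL_int Q q hq (g : ℤ) (by
      have := AIDL_dvd_of_span hd (AIDL_m3 α (Q.cj γ) (g : 𝓞 K))
      rwa [Int.cast_natCast])
    rw [h.yα] at d1
    rw [Q.Y_cj, h.yγ, dvd_neg] at d2
    exact AIDL_nk ht hq (gf q hq (by exact_mod_cast d3)) d1 d2
  · have h1 := congrArg Ideal.absNorm hA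
    rw [map_mul, hNb, hNB] at h1
    have h2 : b ^ 5 * Ideal.absNorm A = b ^ 5 * b ^ 5 := by
      rw [← h1]
      ring
    exact Nat.eq_of_mul_eq_mul_left (by positivity) h2
  · rw [hA] at hB
    have h1 : B * (a ^ 5 * A) = B * Ideal.span {θ} := by
      calc B * (a ^ 5 * A) = B * A * a ^ 5 := by ring
        _ = Ideal.span {θ} * B := hB
        _ = _ := mul_comm _ _
    exact (mul_left_cancel₀ hB0 h1).symm

end Pool.Agent.helper26.T5
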