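import Pool.Agent.helper26.T5.SpecH

set_option autoImplicit false

/-! Row t5:HSU -/

namespace Pool.Agent.helper26.T5

theorem hsu : HSU := by
  intro R _ _ I J n
  by_cases hG : I ⊔ J = ⊥
  · have hI : I = ⊥ := le_bot_iff.1 (hG ▸ le_sup_left)
    have hJ : J = ⊥ := le_bot_iff.1 (hG ▸ le_sup_right)
    subst hI hJ
    simp
  · obtain ⟨I', hI'⟩ := Ideal.dvd_iff_le.2 (le_sup_left : I ≤ I ⊔ J)
    obtain ⟨J', hJ'⟩ := Ideal.dvd_iff_le.2 (le_sup_right : J ≤ I ⊔ J)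
    set G := I ⊔ J with hGd
    have h1 : G * (I' ⊔ J') = G * ⊤ := by
      rw [Ideal.mul_sup, ← hI', ← hJ', ← hGd, Ideal.mul_top]
    have h2 : I' ⊔ J' = ⊤ := mul_left_cancel₀ hG h1
    have h3 : IsCoprime I' J' := Ideal.isCoprime_iff_sup_eq.2 h2
    have h4 : I' ^ n ⊔ J' ^ n = ⊤ := Ideal.isCoprime_iff_sup_eq.1 (h3.pow)
    rw [hI', hJ', mul_pow, mul_pow, ← Ideal.mul_sup, h4, Ideal.mul_top]

end Pool.Agent.helper26.T5
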