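import Pool.Agent.helper26.T5.SpecH
import Pool.Agent.helper96.T5.HCL
import Pool.Agent.helper68.T5.HDV
import Pool.Agent.helper78.T5.HFD
import Pool.Agent.helper31.T5.HFT
import Pool.Agent.helper42.T5.HGA
import Pool.Agent.helper42.T5.HPR
import Pool.Agent.helper63.T5.HGT
import Pool.Agent.helper39.T5.HLN
import Pool.Agent.helper68.T5.HSD
import Pool.Agent.helper68.T5.HSM
import Pool.Agent.helper20.T5.HSQ
import Pool.Agent.helper26.T5.HSU
import Pool.Agent.helper26.T5.HID
import Pool.Agent.helper59.T5.LPR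
import Pool.Agent.helper85.T5.LEMB
import Pool.Agent.helper1.T5.UFT
import Pool.Agent.helper3.T5.AllA

set_option autoImplicit false

/-!
# T5 (MP_16912e_nt), block H: all rows together
-/

namespace Pool.Agent.helper26.T5.AllH

open Pool.Agent.helper26.T5 Pool.Agent.T5

theorem aHID : HID := hid hsu ARAM
theorem aHSQ : HSQ := hsq ARAM ASQF
theorem aHGA : HGA := hga lemb lpr hln hpr
theorem aHGT : HGT := hgt lemb lpr hln aHSQ
theorem aHFD : HFD := hfd all_AELE aHID hcl aHGA aHGT
theorem aHSD : HSD := Pool.Agent.helper68.T5.hsd aHFD Pool.Agent.helper68.T5.hdv UFT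

/-- `T3_stmt` of the interface -/
theorem T3_all : ∀ δ : ℝ, 0 < δ → T3_stmt δ := hft aHSD Pool.Agent.helper68.T5.hsm

end Pool.Agent.helper26.T5.AllH
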