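import Pool.Agent.helper43.T5.LA1
import Pool.Agent.helper50.T5.LA2
import Pool.Agent.helper68.T5.LA3
import Pool.Agent.helper72.T5.LA4
import Pool.Agent.helper62.T5.LPD
import Pool.Agent.helper62.T5.LPS
import Pool.Agent.helper72.T5.LCRT
import Pool.Agent.helper9.T5.LQ1
import Pool.Agent.helper45.T5.LQ2
import Pool.Agent.helper92.T5.LQ3
import Pool.Agent.helper59.T5.LPR
import Pool.Agent.helper55.T5.LRS
import Pool.Agent.helper85.T5.LEMB
import Pool.Agent.helper31.T5.LBA
import Pool.Agent.helper11.T5.LBB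
import Pool.Agent.helper72.T5.LXW
import Pool.Agent.helper58.T5.LPA
import Pool.Agent.helper11.T5.LQF
import Pool.Agent.helper23.T5.LAW
import Pool.Agent.helper16.T5.LLOC
import Pool.Agent.helper23.T5.L1
import Pool.Agent.helper75.T5.L2
import Pool.Agent.helper16.T5.LRM
import Pool.Agent.helper53.T5.LP
import Pool.Agent.helper59.T5.LFU
import Pool.Agent.helper11.T5.LRD
import Pool.Agent.helper93.T5.LCM
import Pool.Agent.helper70.T5.LI
import Pool.Agent.helper74.T5.LII
import Pool.Agent.helper11.T5.LIII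
import Pool.Agent.helper53.T5.LT4
import Pool.Agent.helper30.T5.LYT
import Pool.Agent.helper9.T5.LGA
import Pool.Agent.helper19.T5.LF1
import Pool.Agent.helper14.T5.LF2
import Pool.Agent.helper87.T5.LFB
import Pool.Agent.helper97.T5.LTD
import Pool.Agent.helper16.T5.LUS
import Pool.Agent.helper16.T5.LFT
import Pool.Agent.helper64.T5.LFE

set_option autoImplicit false

/-!
# T5 (MP_16912e_nt), block L: all rows together
-/

namespace Pool.Agent.helper26.T5.AllL

open Pool.Agent.helper26.T5 Pool.Agent.T5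

theorem aLA3 : LA3 := Pool.Agent.helper68.T5.la3 la1 la2
theorem aLA4 : LA4 := la4 la1
theorem aLPD : LPD := lpd aLA3
theorem aLPS : LPS := lps aLA4
theorem aLBB : LBB := lbb lemb lba
theorem aLQF : LQF := lqf lemb
theorem aLAW : LAW := law lxw lpa
theorem aLLOC : LLOC := lloc aLQF aLAW lxw lpa lq1 Pool.Agent.helper45.T5.lq2 (lq3 lq1)
theorem aL1 : L1 := l1 lemb aLBB aLLOC lcrt aLPD aLPS aLA3
theorem aL2 : L2 := l2 lemb aLBB aLLOC lcrt aLPS Pool.Agent.helper55.T5.lrs
theorem aLP : LP := lP lemb lpr lrm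
theorem aLRD : LRD := lrd lxw
theorem aLCM : LCM := lcm aLAW lemb
theorem aLI : LI := li aLP aLCM
theorem aLII : LII := Pool.Agent.helper74.T5.lii aLP
theorem aLIII : LIII := liii aLP lfu aLRD aLAW
theorem aLT4 : LT4 := lt4 aLP
theorem aLYT : LYT := Pool.Agent.helper30.T5.lyt

/-- `L1_stmt` of the interface -/
theorem L1_all (d : ℝ) (hd : 0 < d) : L1_stmt d := lF1 aL1 d hd
/-- `L2_stmt` of the interface -/
theorem L2_all (d : ℝ) (hd : 0 < d) : L2_stmt d := lf2 aL2 lemb aLYT aLAW d hd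
/-- `LB_stmt` of the interface -/
theorem LB_all (d : ℝ) (hd : 0 < d) : LB_stmt d := lfb aLI aLII aLIII aLYT aLRD lfu aLAW lemb d hd

/-- `LE_stmt` of the interface -/
theorem LE_all (d : ℝ) (hd : 0 < d) : LE_stmt d := lfe aLP lga d hd
/-- `T4_stmt` of the interface, from `ALG_stmt` and `U_stmt` -/
theorem T4_all (hALG : ALG_stmt) (hU : U_stmt) : ∀ δ : ℝ, 0 < δ → T4_stmt δ :=
  lft (ltd hALG aLT4 lfu aLYT aLAW lemb) (lus hU)

end Pool.Agent.helper26.T5.AllL
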