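import Pool.Agent.helper47.RA.Model

set_option autoImplicit false

/-!
# T5 (MP_16912e_nt), block L, part A: plane lattices and local densities (statements)

Every `def X : Prop` below is a row.  The proof is written out in its docstring.  A row is a file
`Pool/Agent/<seat>/T5/<X>.lean` with `theorem x : X` (the statements named in the docstring may be
taken as hypotheses `(h : Y)`, nothing else).
-/

namespace Pool.Agent.helper26.T5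

open MeasureTheory

/-- the points of a translated lattice -/
noncomputable def lp (v e₁ e₂ : ℂ) (p : ℤ × ℤ) : ℂ := v + p.1 * e₁ + p.2 * e₂

/-- the covolume -/
noncomputable def cov (e₁ e₂ : ℂ) : ℝ := |((starRingEnd ℂ) e₁ * e₂).im|

/-- ROW LA1.  Gauss: upper bound for the number of lattice points.

PROOF.  Let `A : ℂ →ₗ[ℝ] ℂ`, `A (x + i y) = x e₁ + y e₂`; its determinant is
`(conj e₁ * e₂).im` (matrix in `Complex.basisOneI`), so `A` is injective and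
`F := A '' ([0,1) ×ℂ [0,1))` is measurable of volume `cov e₁ e₂`
(`MeasureTheory.Measure.addHaar_image_linearMap`, `Complex.volume_preserving_equiv_real_prod`).
The translates `lp v e₁ e₂ p + F` are pairwise disjoint (`A` injective, floors), each has volume
`cov e₁ e₂`, and for `lp v e₁ e₂ p ∈ S` it is contained in `T`, because the elements of `F` have
norm at most `‖e₁‖ + ‖e₂‖ ≤ d`.  So for every finite set `G` of such `p` one has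
`G.card * cov ≤ volume T < ∞`: the set is finite (an infinite set has finite subsets of every
cardinality) and the bound follows. -/
def LA1 : Prop := ∀ (v e₁ e₂ : ℂ) (d : ℝ) (S T : Set ℂ), 0 < cov e₁ e₂ → ‖e₁‖ + ‖e₂‖ ≤ d →
  MeasurableSet T → volume T ≠ ⊤ → (∀ z ∈ S, ∀ u : ℂ, ‖u‖ ≤ d → z + u ∈ T) →
  {p : ℤ × ℤ | lp v e₁ e₂ p ∈ S}.Finite ∧
    cov e₁ e₂ * ({p : ℤ × ℤ | lp v e₁ e₂ p ∈ S}.ncard : ℝ) ≤ (volume T).toReal

/-- ROW LA2.  Gauss: lower bound.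

PROOF.  Notation of `LA1`.  Every `z` with `z - v = A (x + i y)` lies in `lp v e₁ e₂ p + F` for
`p = (⌊x⌋, ⌊y⌋)` (`A` is surjective), and `lp v e₁ e₂ p = z + u` with `‖u‖ ≤ ‖e₁‖ + ‖e₂‖ ≤ d`.  So
`T ⊆ ⋃ p ∈ {p | lp v e₁ e₂ p ∈ S}, (lp v e₁ e₂ p + F)` and
`volume T ≤ ncard * cov` by subadditivity (finite union). -/
def LA2 : Prop := ∀ (v e₁ e₂ : ℂ) (d : ℝ) (S T : Set ℂ), 0 < cov e₁ e₂ → ‖e₁‖ + ‖e₂‖ ≤ d →
  {p : ℤ × ℤ | lp v e₁ e₂ p ∈ S}.Finite → (∀ z ∈ T, ∀ u : ℂ, ‖u‖ ≤ d → z + u ∈ S) →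
  (volume T).toReal ≤ cov e₁ e₂ * ({p : ℤ × ℤ | lp v e₁ e₂ p ∈ S}.ncard : ℝ)

/-- ROW LA3 (hypotheses `LA1`, `LA2`).  Lattice points in a disc.

PROOF.  `S = closedBall 0 R`, `T = closedBall 0 (R + d)` in `LA1`; `T = closedBall 0 (R - d)` in
`LA2`; the volume of a disc is `Complex.volume_closedBall`. -/
def LA3 : Prop := ∀ (v e₁ e₂ : ℂ) (d R : ℝ), 0 < cov e₁ e₂ → ‖e₁‖ + ‖e₂‖ ≤ d → 0 ≤ R →
  {p : ℤ × ℤ | ‖lp v e₁ e₂ p‖ ≤ R}.Finite ∧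
  cov e₁ e₂ * ({p : ℤ × ℤ | ‖lp v e₁ e₂ p‖ ≤ R}.ncard : ℝ) ≤ Real.pi * (R + d) ^ 2 ∧
  (d ≤ R → Real.pi * (R - d) ^ 2 ≤
    cov e₁ e₂ * ({p : ℤ × ℤ | ‖lp v e₁ e₂ p‖ ≤ R}.ncard : ℝ))

/-- ROW LA4 (hypothesis `LA1`).  Lattice points in a rotated rectangle.

PROOF.  `LA1` with `S = {z | ‖z‖ ≤ R ∧ |(conj u * z).im| ≤ h}` and
`T = {z | |(conj u * z).re| ≤ R + d ∧ |(conj u * z).im| ≤ h + d}`.  The map `z ↦ conj u * z` is a
linear isometric automorphism of `ℂ` (`‖u‖ = 1`), hence preserves the volume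
(`LinearIsometryEquiv.measurePreserving`), and `T` is the preimage of
`[-(R+d), R+d] ×ℂ [-(h+d), h+d]`, of volume `4 (R + d) (h + d)`. -/
def LA4 : Prop := ∀ (v e₁ e₂ u : ℂ) (d R h : ℝ), 0 < cov e₁ e₂ → ‖e₁‖ + ‖e₂‖ ≤ d → 0 ≤ R →
  0 ≤ h → ‖u‖ = 1 →
  {p : ℤ × ℤ | ‖lp v e₁ e₂ p‖ ≤ R ∧ |((starRingEnd ℂ) u * lp v e₁ e₂ p).im| ≤ h}.Finite ∧
  cov e₁ e₂ * ({p : ℤ × ℤ | ‖lp v e₁ e₂ p‖ ≤ R ∧
    |((starRingEnd ℂ) u * lp v e₁ e₂ p).im| ≤ h}.ncard : ℝ) ≤ 4 * (R + d) * (h + d)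

/-- nonnegative functions with period `W` in both variables and mean one -/
structure Per (W : ℕ) (F : ℤ → ℤ → ℝ) : Prop where
  nn : ∀ x y, 0 ≤ F x y
  px : ∀ x y, F (x + W) y = F x y
  py : ∀ x y, F x (y + W) = F x y
  mean : ∑ x ∈ Finset.range W, ∑ y ∈ Finset.range W, F x y = (W : ℝ) ^ 2

/-- ROW LPD (hypothesis `LA3`).  Weighted count in a disc.

PROOF.  Split `P` according to the residues `(r, s)`, `0 ≤ r, s < W`, of `p` modulo `W`.  The points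
`p = (r + W i, s + W j)` of one class satisfy
`lp 0 e₁ e₂ p = lp (r e₁ + s e₂) (W e₁) (W e₂) (i, j)`; `cov (W e₁) (W e₂) = W ^ 2 cov e₁ e₂` and
`‖W e₁‖ + ‖W e₂‖ ≤ W d`.  So `LA3` gives
`W ^ 2 cov * #class ≤ π (R + W d) ^ 2` and, if `W d ≤ R`, `≥ π (R - W d) ^ 2`.  `F` is constant
`= F r s` on the class; multiply by `F r s ≥ 0`, sum over `(r, s)`, use `mean` and divide by
`W ^ 2`. -/
def LPD : Prop := ∀ (W : ℕ) (F : ℤ → ℤ → ℝ) (e₁ e₂ : ℂ) (d R : ℝ), 1 ≤ W → Per W F →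
  0 < cov e₁ e₂ → ‖e₁‖ + ‖e₂‖ ≤ d → 0 ≤ R → ∀ P : Finset (ℤ × ℤ),
  (∀ p, p ∈ P ↔ ‖lp 0 e₁ e₂ p‖ ≤ R) →
  cov e₁ e₂ * ∑ p ∈ P, F p.1 p.2 ≤ Real.pi * (R + W * d) ^ 2 ∧
  (W * d ≤ R → Real.pi * (R - W * d) ^ 2 ≤ cov e₁ e₂ * ∑ p ∈ P, F p.1 p.2)

/-- ROW LPS (hypothesis `LA4`).  Weighted count in a rectangle, upper bound.

PROOF.  As `LPD`, with `LA4`; `P` is contained in the set of all points of the rectangle and
`F ≥ 0`. -/
def LPS : Prop := ∀ (W : ℕ) (F : ℤ → ℤ → ℝ) (e₁ e₂ u : ℂ) (d R h : ℝ), 1 ≤ W → Per W F →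
  0 < cov e₁ e₂ → ‖e₁‖ + ‖e₂‖ ≤ d → 0 ≤ R → 0 ≤ h → ‖u‖ = 1 → ∀ P : Finset (ℤ × ℤ),
  (∀ p ∈ P, ‖lp 0 e₁ e₂ p‖ ≤ R ∧ |((starRingEnd ℂ) u * lp 0 e₁ e₂ p).im| ≤ h) →
  cov e₁ e₂ * ∑ p ∈ P, F p.1 p.2 ≤ 4 * (R + W * d) * (h + W * d)

/-- ROW LCRT.  Products of local functions.

PROOF.  Induction on `s`; it is enough to treat two coprime moduli `V, W`: if `Per V F` and
`Per W G` then `Per (V * W) (fun x y => F x y * G x y)`.  Periodicity: iterate `px`, `py`.  Mean: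
`x ↦ (x % V, x % W)` is a bijection from `range (V * W)` to `range V ×ˢ range W`
(`Nat.chineseRemainder`, or injectivity and cardinality), and `F x y = F (x % V) (y % V)` etc., so
the double sum is the product `(∑∑ F) (∑∑ G) = V ^ 2 W ^ 2`.  Distinct primes are coprime.  Empty
set: `W = 1`, `F = 1`. -/
def LCRT : Prop := ∀ (s : Finset ℕ) (F : ℕ → ℤ → ℤ → ℝ), (∀ p ∈ s, p.Prime) →
  (∀ p ∈ s, Per p (F p)) → Per (∏ p ∈ s, p) (fun x y => ∏ p ∈ s, F p x y)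

/-- the pairs of residues modulo `p` -/
def sq (p : ℕ) : Finset (ℕ × ℕ) := Finset.range p ×ˢ Finset.range p

/-- ROW LQ1.  A linear form which does not vanish identically.

PROOF.  Work in the field `ZMod p` (bijection `range p ≃ ZMod p`).  If `n₁ ≠ 0` then for every `y`
there is exactly one `x` with `n₁ x + n₂ y = 0`; similarly if `n₂ ≠ 0`.  So the form vanishes at
exactly `p` of the `p ^ 2` pairs. -/
def LQ1 : Prop := ∀ p : ℕ, p.Prime → ∀ n₁ n₂ : ℤ, ¬ ((p : ℤ) ∣ n₁ ∧ (p : ℤ) ∣ n₂) →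
  ((sq p).filter (fun v => ¬ (p : ℤ) ∣ n₁ * v.1 + n₂ * v.2)).card = p ^ 2 - p

/-- ROW LQ2.  A binary quadratic form whose discriminant is a nonzero square modulo `p`.

PROOF.  `p` odd: let `D = B² - 4AC`, `b² = D ≠ 0` in `ZMod p`.  If `A ≠ 0` then
`4 A q = (2 A x + (B - b) y) (2 A x + (B + b) y)`, two linear forms with determinant `4 A b ≠ 0`; if
`A = 0` then `q = y (B x + C y)` with `B ≠ 0`.  In both cases `(x, y) ↦` (the two linear forms) is a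
bijection of `(ZMod p)²`, and both values are nonzero for `(p - 1)²` pairs.  `p = 2`: `B` is odd and
`8 ∣ b² - D` gives `D % 8 = 1`, so `A C` is even; the four values `q(0,0) = 0`, `q(1,0) = A`,
`q(0,1) = C`, `q(1,1) = A + B + C` show that exactly one is odd. -/
def LQ2 : Prop := ∀ p : ℕ, p.Prime → ∀ A B C : ℤ, ¬ (p : ℤ) ∣ B ^ 2 - 4 * A * C →
  (∃ b : ℤ, (4 * p : ℤ) ∣ b ^ 2 - (B ^ 2 - 4 * A * C)) →
  ((sq p).filter (fun v => ¬ (p : ℤ) ∣ A * v.1 ^ 2 + B * v.1 * v.2 + C * v.2 ^ 2)).card =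
    (p - 1) ^ 2

/-- ROW LQ3 (hypothesis `LQ1`).  A binary quadratic form of fundamental discriminant at a ramified
prime.

PROOF.  `p` odd.  If `p ∤ A` then `4 A q = (2 A x + B y)² - D y² = (2 A x + B y)²` modulo `p`, so
`p ∤ q` iff `p ∤ 2 A x + B y`: `LQ1`.  If `p ∣ A` then `p ∣ B²`, `p ∣ B`, `q = C y²`; `p ∤ C`, since
otherwise `p² ∣ D`, against `IsFund.sq_dvd` (`p` odd): `p ∤ q` iff `p ∤ C y`: `LQ1` with `(0, C)`.
`p = 2`: `D` is even, so `B` is even, `D = 4 m`, `m = (B/2)² - A C`, `m % 4 = 2 or 3`.  If `A` and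
`C` were even then `m % 4` would be `0` or `1`.  So `A` or `C` is odd and
`q = A x² + C y² = A x + C y` modulo `2`: `LQ1` with `(A, C)`. -/
def LQ3 : Prop := ∀ p : ℕ, p.Prime → ∀ A B C : ℤ,
  Pool.Agent.helper47.RA.IsFund (B ^ 2 - 4 * A * C) → (p : ℤ) ∣ B ^ 2 - 4 * A * C →
  ((sq p).filter (fun v => ¬ (p : ℤ) ∣ A * v.1 ^ 2 + B * v.1 * v.2 + C * v.2 ^ 2)).card =
    p ^ 2 - p

/-- ROW LPR.  Pairwise independent points of the upper half disc.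

PROOF.  For `z ≠ z'` in `S` one has, with `φ = arg z`, `φ' = arg z'` in `(0, π)`,
`V ≤ |(conj z * z').im| = ‖z‖ ‖z'‖ |sin (φ' - φ)| ≤ R² |φ' - φ|`.  So `z ↦ ⌊arg z * R² / V⌋₊` is
injective on `S` (if two floors agree then `|φ' - φ| R² / V < 1`), with values in
`range (⌊π R² / V⌋₊ + 1)`: at most `π R² / V + 1` points.  (`R = 0` forces `S = ∅`.) -/
def LPR : Prop := ∀ (S : Finset ℂ) (R V : ℝ), 0 < V → (∀ z ∈ S, ‖z‖ ≤ R ∧ 0 < z.im) →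
  (∀ z ∈ S, ∀ z' ∈ S, z ≠ z' → V ≤ |((starRingEnd ℂ) z * z').im|) →
  (S.card : ℝ) ≤ Real.pi * R ^ 2 / V + 1

/-- ROW LRS.  If `2 φ - 2 η` is close to a multiple of `π` then `φ - η` is close to a multiple of
`π / 2`.

PROOF.  `‖t‖ = ‖u‖ ^ 2 = 1`; `(conj t * z ^ 2) = (conj u * z) ^ 2` with `t = u ^ 2`.  Put
`w = conj u * z = x + i y`, `‖w‖ = ‖z‖`: `2 |x| |y| = |(w ^ 2).im| ≤ κ ‖w‖ ^ 2` and
`max |x| |y| ≥ ‖w‖ / √2`, so `min |x| |y| ≤ κ ‖w‖ / √2 ≤ κ ‖w‖`.  If `|y|` is the minimum use `u`,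
otherwise use `u * I`: `conj (u * I) * z = - I * w` has imaginary part `- x`. -/
def LRS : Prop := ∀ (u z : ℂ) (κ : ℝ), ‖u‖ = 1 → 0 ≤ κ →
  |((starRingEnd ℂ) (u ^ 2) * z ^ 2).im| ≤ κ * ‖z‖ ^ 2 →
  |((starRingEnd ℂ) u * z).im| ≤ κ * ‖z‖ ∨
    |((starRingEnd ℂ) (u * Complex.I) * z).im| ≤ κ * ‖z‖

end Pool.Agent.helper26.T5
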