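import Pool.Agent.helper26.T5.SpecA
import Pool.Agent.helper95.T5.InterfaceB
import Pool.Agent.helper8.FT.A5a
import Pool.Agent.helper96.FT.A4b
import Pool.Agent.helper61.FT.A3

set_option autoImplicit false

/-!
# T5 (MP_16912e_nt), block L, part B: the lattice of the square of an ideal (statements)

Every `def X : Prop` below is a row.  The proof is written out in its docstring.  A row is a file
`Pool/Agent/<seat>/T5/<X>.lean` with `theorem x : X` (the statements named in the docstring may be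
taken as hypotheses `(h : Y)`, nothing else).  The library of the FT project (imported) has all
elementary facts on `QF K`: `Q.Y_add`, `Q.Y_int_mul`, `Q.Y_cj`, `Q.exists_re`, `Q.exists_norm`,
`Q.exists_trace`, `Q.norm_form`, `Q.mul_bar`, `Q.bar_span`, `Q.bar_pow`, `Q.h96_Y_mul`, `Q.h96_Y_cj`,
`Q.dvd_of_dvd`, `Q.int_dvd_iff`, `exists_full_of`, `exists_div_aux`, `Full.gcd_dvd`, `Full.ramified`,
`h96_gcd_q`, `h96_prime_of_norm`, `pow_inj`, ...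
-/

namespace Pool.Agent.helper26.T5

open NumberField Pool.Agent.helper3.FT Pool.Agent.helper47.RA Pool.Agent.T5

variable {K : Type} [Field K] [NumberField K]

/-- the norm of an element -/
noncomputable def nn (α : 𝓞 K) : ℕ := Ideal.absNorm (Ideal.span {α})

/-- the product of the primes up to `w` -/
def WW (w : ℕ) : ℕ := ∏ p ∈ pr w, p

/-- `a²` has no short vector -/
def NE (Q : QF K) (a : Ideal (𝓞 K)) (ℓ : ℝ) : Prop :=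
  ∀ α ∈ a ^ 2, α ≠ 0 → (Ideal.absNorm a : ℝ) ^ 2 * ℓ < Q.v₁ α ^ 2

/-- content one: `(α) / a²` is primitive -/
def Cont1 (a : Ideal (𝓞 K)) (α : 𝓞 K) : Prop :=
  ∀ q : ℕ, q.Prime → ¬ Ideal.span {(q : 𝓞 K)} * a ^ 2 ∣ Ideal.span {α}

/-! ## geometry -/

/-- ROW LEMB.  The complex embedding.

PROOF.  For `a = x + y ω` put `E a = (x + y t / 2) + i (y √|D| / 2)`.  The coordinates of a sum and
of a product: `Q.exists_re`, `Q.Y_spec`, `Q.lin`, `Q.hω : ω * ω = k + t ω`; with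
`s = t / 2 + i √|D| / 2` one has `s ^ 2 = k + t s` (`t ^ 2 = t`, `D = t + 4 k`, `|D| = - D`).  So `E` is a
ring homomorphism.  `E (cj a) = conj (E a)` from `Q.cj_form`.  Norm:
`‖E a‖ ^ 2 = x ^ 2 + t x y - k y ^ 2 = a * cj a` (`Q.norm_form`), which is
`Q.v₁ a * Q.v₂ a = (Q.v₁ a) ^ 2` in absolute value by `Q.hnorm`, `Q.himag`, `Q.exists_norm`
(`x ^ 2 + t x y - k y ^ 2 ≥ 0`); both sides are nonnegative.  Last clause: `a * cj a` is the integer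
`x ^ 2 + t x y - k y ^ 2 = nn a`. -/
def LEMB : Prop := ∀ (K : Type) [Field K] [NumberField K] (Q : QF K), Q.D < 0 →
  ∃ E : 𝓞 K →+* ℂ, (∀ a, ‖E a‖ = Q.v₁ a) ∧ (∀ a, (E a).im = Q.Y a * (√|(Q.D : ℝ)| / 2)) ∧
    (∀ a, E (Q.cj a) = (starRingEnd ℂ) (E a)) ∧ (∀ a, (nn a : ℝ) = Q.v₁ a ^ 2) ∧
    ∀ a, a * Q.cj a = (nn a : 𝓞 K)

/-- a reduced basis of an ideal -/
structure RB (Q : QF K) (I : Ideal (𝓞 K)) (e₁ e₂ : 𝓞 K) : Prop where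
  m1 : e₁ ∈ I
  m2 : e₂ ∈ I
  sp : ∀ α ∈ I, ∃ x y : ℤ, α = x * e₁ + y * e₂
  det : |Q.Y (Q.cj e₁ * e₂)| = (Ideal.absNorm I : ℤ)
  ne : e₁ ≠ 0
  le : Q.v₁ e₁ ≤ Q.v₁ e₂
  red : Q.v₁ e₁ * Q.v₁ e₂ ≤ √|(Q.D : ℝ)| * Ideal.absNorm I

/-- ROW LBA.  A basis of an ideal.

PROOF.  `I ≠ ⊥`.  The set `{Y α | α ∈ I}` is a subgroup of `ℤ`, so it is `c ℤ`, and `c ≠ 0`
(otherwise `I ⊆ ℤ`, but `α ∈ I`, `α ≠ 0` gives `α ω ∈ I` with `Y (α ω) ≠ 0`); choose `e₂ ∈ I` with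
`Y e₂ = c`.  The set `{x : ℤ | (x : 𝓞 K) ∈ I}` is `b ℤ`, `b ≠ 0` (it contains the norm of `I`); put
`e₁ = b`.  For `α ∈ I`: `Y α = j c`, `Y (α - j e₂) = 0`, so `α - j e₂` is an integer in `I`
(`Q.Y_eq_zero_iff`), a multiple of `b`.  `Y (cj e₁ * e₂) = b c`.  Its absolute value is the norm of
`I` (number of classes of `𝓞 K` modulo `I`): `(x, y) ↦ x + y ω`, `0 ≤ x < |b|`, `0 ≤ y < |c|`, is a
system of representatives (`Y` of a difference in `I` is a multiple of `c`, so the `y` agree, then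
the `x` agree; every class is reached by subtracting multiples of `e₂`, then of `e₁`), so
`Submodule.cardQuot` (`Ideal.absNorm_apply`) is `|b| |c|`.  (Alternatively
`Ideal.natAbs_det_equiv` / `Ideal.natAbs_det_basis_change` with the basis `1, ω`.) -/
def LBA : Prop := ∀ (K : Type) [Field K] [NumberField K] (Q : QF K) (I : Ideal (𝓞 K)), I ≠ ⊥ →
  ∃ e₁ ∈ I, ∃ e₂ ∈ I, (∀ α ∈ I, ∃ x y : ℤ, α = x * e₁ + y * e₂) ∧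
    |Q.Y (Q.cj e₁ * e₂)| = (Ideal.absNorm I : ℤ)

/-- ROW LBB (hypotheses `LEMB`, `LBA`).  A reduced basis.

PROOF.  Let `f₁, f₂` be the basis of `LBA`, `M = absNorm I > 0`.  Choose `e₁ ∈ I`, `e₁ ≠ 0`, with
`nn e₁` minimal (natural numbers), `e₁ = x f₁ + y f₂`.  `gcd (x, y) = 1`: if a prime `p` divides both,
`e₁ = p β`, `β ∈ I`, `nn β < nn e₁`.  Let `x v - y u = 1` and `g = u f₁ + v f₂`; then every `α ∈ I`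
is an integral combination of `e₁, g`, and `Y (cj e₁ * g) = (x v - y u) Y (cj f₁ * f₂)`
(`Y (cj f * f) = 0`, `Y (cj f₂ * f₁) = - Y (cj f₁ * f₂)`).  Let `τ = cj e₁ * g + e₁ * cj g ∈ ℤ`
(`Q.exists_trace`) and `j` the integer nearest to `τ / (2 nn e₁)`, `e₂ = g - j e₁`: the trace
`τ'` of `cj e₁ * e₂` satisfies `|τ'| ≤ nn e₁`, and still `|Y (cj e₁ * e₂)| = M`.  With
`E` of `LEMB`: `4 nn e₁ nn e₂ = |2 E (cj e₁ * e₂)| ^ 2 = τ' ^ 2 + |D| M ^ 2` (real part `τ' / 2`,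
imaginary part `± M √|D| / 2`).  `e₂ ≠ 0` (`M ≠ 0`), so `nn e₁ ≤ nn e₂`, which is `le`, and
`4 nn e₁ nn e₂ ≤ nn e₁ ^ 2 + |D| M ^ 2 ≤ nn e₁ nn e₂ + |D| M ^ 2`: `red` (even with `1/√3`). -/
def LBB : Prop := ∀ (K : Type) [Field K] [NumberField K] (Q : QF K) (I : Ideal (𝓞 K)), Q.D < 0 →
  I ≠ ⊥ → ∃ e₁ e₂ : 𝓞 K, RB Q I e₁ e₂

/-- ROW LXW.  Ideals of prime norm.

PROOF.  The ring `𝓞 K ⧸ P` has `p` elements (`Ideal.absNorm_apply`), so it has characteristic `p`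
(`(p : 𝓞 K) ∈ P`: `Ideal.absNorm_mem`) and the additive map from `ℤ` to it has kernel `p ℤ`
(the kernel is `m ℤ` with `m ∣ p`, and `m = 1` would give `1 ∈ P`, `absNorm P = 1`) and is surjective
by cardinality.  So: (1) there is `x : ℤ` with `x + ω ∈ P`; (2) `c ∈ P ∩ ℤ` implies `p ∣ c`.
(3) `(x + ω) * cj (x + ω) = x ^ 2 + t x - k ∈ P` (`Q.norm_form` with `y = 1`), so `p` divides it; if
`bar P = P` then also `cj (x + ω) = x + t - ω ∈ P`, the sum `2 x + t ∈ P`, `p ∣ 2 x + t`, and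
`D = (2 x + t) ^ 2 - 4 (x ^ 2 + t x - k)` (`t ^ 2 = t`, `D = t + 4 k`).  (4) `b = 2 x + t`. -/
def LXW : Prop := ∀ (K : Type) [Field K] [NumberField K] (Q : QF K) (P : Ideal (𝓞 K)) (p : ℕ),
  p.Prime → Ideal.absNorm P = p →
  (∃ x : ℤ, (x : 𝓞 K) + Q.ω ∈ P) ∧ (∀ c : ℤ, (c : 𝓞 K) ∈ P → (p : ℤ) ∣ c) ∧
    (Q.bar P = P → (p : ℤ) ∣ Q.D) ∧ ∃ b : ℤ, (4 * p : ℤ) ∣ b ^ 2 - Q.D

/-- ROW LPA.  A prime dividing the norm of a primitive ideal.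

PROOF.  `P = a ⊔ span {p}`.  `P ≠ ⊤`: otherwise `a` and `(p)` are coprime, so `bar a` and
`bar (p) = (p)` are coprime (`h96_bar_q`), so `a * bar a = (N a)` (`Q.mul_bar`) and `(p)` are coprime,
but `p ∣ N a` gives `(N a) ≤ (p) ≠ ⊤`.  `h96_gcd_q` gives `absNorm P = p`. -/
def LPA : Prop := ∀ (K : Type) [Field K] [NumberField K] (_ : QF K) (a : Ideal (𝓞 K)) (p : ℕ),
  Prim a → a ≠ ⊥ → p.Prime → p ∣ Ideal.absNorm a →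
  Ideal.absNorm (a ⊔ Ideal.span {(p : 𝓞 K)}) = p

/-- ROW LQF (hypothesis `LEMB`).  The quadratic form of a basis of `a²`.

PROOF.  `absNorm (a ^ 2) = Z ^ 2`, `Z = absNorm a`.  For `α, β ∈ a²`, `cj α * β ∈ bar a ^ 2 * a ^ 2 =
(Z ^ 2)` (`Q.mul_bar`, `Q.bar_pow`), so `cj α * β = Z ^ 2 β'`.  Take `A, C` with
`cj e₁ * e₁ = Z ^ 2 A`, `cj e₂ * e₂ = Z ^ 2 C` (integers: `Y = 0`) and
`cj e₁ * e₂ + e₁ * cj e₂ = Z ^ 2 B`.  Then `cj α * α = Z ^ 2 (A x ^ 2 + B x y + C y ^ 2)` for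
`α = x e₁ + y e₂`, and this is `nn α` (`LEMB`).  Discriminant:
with `δ = cj e₁ * e₂ = r + s ω`, `|s| = Z ^ 2`, one has `(δ - cj δ) ^ 2 = s ^ 2 D` (`Q.sub_cj`,
`Q.delta_sq`) and `(δ - cj δ) ^ 2 = (δ + cj δ) ^ 2 - 4 δ cj δ = Z ^ 4 (B ^ 2 - 4 A C)`. -/
def LQF : Prop := ∀ (K : Type) [Field K] [NumberField K] (Q : QF K) (a : Ideal (𝓞 K))
  (e₁ e₂ : 𝓞 K), Q.D < 0 → a ≠ ⊥ → RB Q (a ^ 2) e₁ e₂ →
  ∃ A B C : ℤ, B ^ 2 - 4 * A * C = Q.D ∧ ∀ x y : ℤ,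
    (nn (x * e₁ + y * e₂ : 𝓞 K) : ℤ) =
      (Ideal.absNorm a : ℤ) ^ 2 * (A * x ^ 2 + B * x * y + C * y ^ 2)

/-- ROW LAW (hypotheses `LXW`, `LPA`).  The local condition.

PROOF.  Only this is not formal: `p ∣ Z = absNorm a`, `p ∤ D`, `p ∤ Λ` (`Λ = lamI a α`,
`nn α = Z ^ 2 Λ`, because `(α) = a² L`, `Λ = absNorm L`) imply `p ∤ Y α`.  Suppose `p ∣ Y α`.  `p ∣ nn α`, so
`p ∣ α` in `𝓞 K` (`Q.dvd_of_dvd` with `Q.exists_norm`), `(p) ∣ a² L`.  `P = a ⊔ (p)` has norm `p`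
(`LPA`), is prime (`h96_prime_of_norm`), divides `a`, and `bar P ≠ P` (`LXW`, `p ∤ D`).
`P * bar P = (p)`.  `bar P ∤ a`: otherwise the two distinct primes `P, bar P` divide `a`, so
`(p) ∣ a`, against `Prim a`.  So `bar P ∣ a² L` gives `bar P ∣ L` and `p = N (bar P) ∣ N L = Λ`. -/
def LAW : Prop := ∀ (K : Type) [Field K] [NumberField K] (Q : QF K) (a : Ideal (𝓞 K)) (α : 𝓞 K)
  (p : ℕ), Prim a → a ≠ ⊥ → p.Prime → α ≠ 0 → α ∈ a ^ 2 →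
  nn α = Ideal.absNorm a ^ 2 * lamI a α ∧
  (p ∣ Ideal.absNorm a → (alw Q p a α ↔ ¬ p ∣ lamI a α)) ∧
    (¬ p ∣ Ideal.absNorm a → (alw Q p a α ↔ ¬ (p : ℤ) ∣ Q.Y α))

open Classical in
/-- ROW LLOC (hypotheses `LQF`, `LAW`, `LXW`, `LPA`, `LQ1`, `LQ2`, `LQ3`).  The local functions have
mean one.

PROOF.  `Z = absNorm a`, `A, B, C` from `LQF`, `q(x,y) = A x ^ 2 + B x y + C y ^ 2`.  At `(x, y) = (0, 0)`
`alw` fails (`Y 0 = 0`, `lamI a 0 = 0`); at the other points `lamI a α = q(x,y)` and `LAW` applies.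
If `p ∣ Z`: `alw` holds iff `p ∤ q(x,y)`; this depends on `x, y` modulo `p` only.  If moreover
`p ∤ D`, the number of pairs of residues is `(p - 1) ^ 2` by `LQ2` (`LXW` (4) for the ideal
`a ⊔ (p)`, `LPA`) and the weight is `(p / (p - 1)) ^ 2`; if
`p ∣ D`, the number is `p ^ 2 - p` by `LQ3` (`Q.hD`) and the weight `p / (p - 1)`: in both cases the
sum is `p ^ 2`.  If `p ∤ Z`: `alw` holds iff `p ∤ Y e₁ x + Y e₂ y`; `p` does not divide both `Y e₁` and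
`Y e₂`, since otherwise `p ∣ Y (cj e₁ * e₂) = ± Z ^ 2` (`Q.h96_Y_mul`, `Q.h96_Y_cj`); `LQ1` gives
`p ^ 2 - p` pairs, weight `p / (p - 1)`. -/
def LLOC : Prop := ∀ (K : Type) [Field K] [NumberField K] (Q : QF K) (a : Ideal (𝓞 K))
  (e₁ e₂ : 𝓞 K), Q.D < 0 → Prim a → a ≠ ⊥ → RB Q (a ^ 2) e₁ e₂ → ∀ p : ℕ, p.Prime →
  Per p (fun x y : ℤ => if alw Q p a (x * e₁ + y * e₂ : 𝓞 K) then
    (if p ∣ Ideal.absNorm a ∧ ¬ (p : ℤ) ∣ Q.D then ((p : ℝ) / (p - 1)) ^ 2 else (p : ℝ) / (p - 1))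
    else 0)

/-- ROW L1 (hypotheses `LEMB`, `LBB`, `LLOC`, `LCRT`, `LPD`, `LPS`, `LA3`).  The weighted number of
points of `a²` in the half disc.

PROOF.  `Z = absNorm a > 0`, `s = √|D|`, `e₁, e₂` from `LBB` with `I = a²`, `E` from `LEMB`,
`W = WW w ≥ 1`, `R = Z √T`, `V = cov (E e₁) (E e₂) = Z ^ 2 s / 2` (`det`),
`d = ‖E e₁‖ + ‖E e₂‖ ≤ 2 v₁ e₂`.  By `NE`, `v₁ e₁ ≥ Z √ℓ`; by `red`, `v₁ e₂ ≤ s Z ^ 2 / (Z √ℓ)`; so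
`W d ≤ 2 W s Z / √ℓ = ρ R ≤ R`.
Let `F x y = ∏ p ∈ pr w, (if alw ... then ... else 0)`: `Per W F` by `LLOC`, `LCRT`, and
`F x y = wt Q w a (x e₁ + y e₂)`, `F (-x) (-y) = F x y` (`alw` is even: `Y`, `lamI`).  The set of all
`(x, y)` with `‖lp 0 (E e₁) (E e₂) (x, y)‖ ≤ R` is finite (`LA3`), `P₀` its finset.  The map
`(x, y) ↦ x e₁ + y e₂` is injective (`V ≠ 0`) with image the set of `α ∈ a²` with
`v₁ α ^ 2 ≤ Z ^ 2 T`.  Put `S = ∑ P₀ F`, `S₀` = the part with `Y α = 0`, `S₊` with `Y α > 0`, `S₋` with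
`Y α < 0`: `S = S₀ + S₊ + S₋` and `S₋ = S₊` (`(x, y) ↦ (-x, -y)`).  `LPD`:
`|V S - π R ^ 2| ≤ π (2 ρ + ρ ^ 2) R ^ 2 ≤ 3 π ρ R ^ 2`.  `LPS` with `u = 1`, `h = 0`:
`V S₀ ≤ 4 (1 + ρ) ρ R ^ 2 ≤ 8 ρ R ^ 2`.  So
`|V S₊ - π R ^ 2 / 2| ≤ (3 π + 8) ρ R ^ 2 / 2 ≤ 9 ρ R ^ 2`; divide by `V`: `R ^ 2 / V = 2 T / s`. -/
def L1 : Prop := ∀ (K : Type) [Field K] [NumberField K] (Q : QF K) (a : Ideal (𝓞 K)) (w : ℕ)
  (ℓ T ρ : ℝ), Q.D < 0 → Prim a → a ≠ ⊥ → 0 < ℓ → 0 < T → NE Q a ℓ →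
  ρ = 2 * WW w * √|(Q.D : ℝ)| / √(ℓ * T) → ρ ≤ 1 →
  ∃ P : Finset (𝓞 K), (∀ α, α ∈ P ↔ α ∈ AL Q a T) ∧
    |(∑ α ∈ P, wt Q w a α) - Real.pi * (T / √|(Q.D : ℝ)|)| ≤ 18 * ρ * (T / √|(Q.D : ℝ)|)

/-- the bad directions and sizes -/
def BadDir (Q : QF K) (a : Ideal (𝓞 K)) (θ : 𝓞 K) (κ T : ℝ) (α : 𝓞 K) : Prop :=
  Q.v₁ α ^ 2 ≤ κ * ((Ideal.absNorm a : ℝ) ^ 2 * T) ∨
  (Q.Y α : ℝ) * √|(Q.D : ℝ)| ≤ 2 * κ * Q.v₁ α ∨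
  ∃ γ : 𝓞 K, γ * θ = Ideal.absNorm a * α ^ 2 ∧
    |(Q.Y γ : ℝ)| * √|(Q.D : ℝ)| ≤ 2 * κ * Q.v₁ γ

/-- ROW L2 (hypotheses `LEMB`, `LBB`, `LLOC`, `LCRT`, `LPD`, `LPS`, `LRS`, `LA3`).  The weighted
number of points in the bad region.

PROOF.  Notation of `L1`.  `S` is contained in the union of four sets: (a) `v₁ α ^ 2 ≤ κ Z ^ 2 T`:
`‖E α‖ ≤ √κ R`, `LPD` (upper bound, all points of this disc):
`V Σ ≤ π (√κ + ρ) ^ 2 R ^ 2 ≤ 2 π (κ + ρ) R ^ 2` (`ρ ^ 2 ≤ ρ`).  (b) `Im (E α) = Y α s / 2 ≤ κ ‖E α‖ ≤ κ R`: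
`LPS` with `u = 1`, `h = κ R`: `V Σ ≤ 4 (1 + ρ) (κ + ρ) R ^ 2 ≤ 8 (κ + ρ) R ^ 2`.
(c) `|Im (E γ)| ≤ κ ‖E γ‖`, `E γ = Z (E α) ^ 2 / E θ`.  Let `u ∈ ℂ`, `‖u‖ = 1`, `u ^ 2 = E θ / ‖E θ‖`
(a square root of a number of absolute value one); `E γ = (Z / ‖E θ‖) conj (u ^ 2) (E α) ^ 2`, so
`|(conj (u ^ 2) * (E α) ^ 2).im| ≤ κ ‖E α‖ ^ 2`, and `LRS` puts `α` into the rectangle of `u` or of
`u I` with `h = κ R`: twice `8 (κ + ρ) R ^ 2`.  Sum: `(2 π + 24) (κ + ρ) R ^ 2 / V ≤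
62 (κ + ρ) T / s`.  (`wt ≥ 0`, so the sum over a union is at most the sum of the sums; `κ ≤ 1`.) -/
def L2 : Prop := ∀ (K : Type) [Field K] [NumberField K] (Q : QF K) (a : Ideal (𝓞 K)) (θ : 𝓞 K)
  (w : ℕ) (ℓ T ρ κ : ℝ), Q.D < 0 → Prim a → a ≠ ⊥ → 0 < ℓ → 0 < T → NE Q a ℓ → θ ≠ 0 →
  ρ = 2 * WW w * √|(Q.D : ℝ)| / √(ℓ * T) → ρ ≤ 1 → 0 < κ → κ ≤ 1 →
  ∀ S : Finset (𝓞 K), (∀ α ∈ S, α ∈ AL Q a T ∧ BadDir Q a θ κ T α) →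
    ∑ α ∈ S, wt Q w a α ≤ 100 * (κ + ρ) * (T / √|(Q.D : ℝ)|)

/-! ## points of content one -/

/-- ROW LRM (hypothesis `LEMB`).  The sublattice at ramified primes.

PROOF.  `cj α * β ∈ bar a ^ 2 * a ^ 2 = (Z ^ 2)` (`Q.mul_bar`), say `= Z ^ 2 δ`, `nn α nn β = Z ^ 4 nn δ`,
so `r ^ 2 ∣ nn δ`.  Let `δ = x + y ω`: `4 nn δ = (2 x + t y) ^ 2 - D y ^ 2`.  For a
prime `p ∣ r` (odd, `p ∣ D`, `p ^ 2 ∤ D` by `IsFund.sq_dvd`): `p ∣ 2 x + t y`, so `p ^ 2 ∣ D y ^ 2`,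
`p ∣ y`.  `r` is squarefree, so `r ∣ y` and `r Z ^ 2 ∣ Y (cj α * β) = Z ^ 2 y`. -/
def LRM : Prop := ∀ (K : Type) [Field K] [NumberField K] (Q : QF K) (a : Ideal (𝓞 K)) (r : ℕ)
  (α β : 𝓞 K), Q.D < 0 → a ≠ ⊥ → Squarefree r → ¬ 2 ∣ r →
  (∀ p : ℕ, p.Prime → p ∣ r → (p : ℤ) ∣ Q.D) →
  α ∈ a ^ 2 → β ∈ a ^ 2 → r * Ideal.absNorm a ^ 2 ∣ nn α → r * Ideal.absNorm a ^ 2 ∣ nn β →
  ((r * Ideal.absNorm a ^ 2 : ℕ) : ℤ) ∣ Q.Y (Q.cj α * β)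

/-- ROW LP (hypotheses `LEMB`, `LPR`, `LRM`).  The number of points of content one.

PROOF.  `Z = absNorm a`, `s = √|D|`.  Apply `LPR` to the image of `S` under `E` (injective: a ring
homomorphism with `‖E x‖ ^ 2 = nn x`), `R = Z √T`, `V = f r Z ^ 2 s / 2`.  Points:
`‖E α‖ ^ 2 = v₁ α ^ 2 ≤ R ^ 2`, `Im (E α) = Y α s / 2 > 0`.  For `α ≠ β` in `S`: `y := Y (cj α * β)` is a
multiple of `r Z ^ 2` (`LRM`; for `r = 1` as well) and of `f` (`Q.h96_Y_mul`, `Q.h96_Y_cj`), `f` is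
coprime to `r Z ^ 2`, so `f r Z ^ 2 ∣ y`, and `|Im (conj (E α) * E β)| = |y| s / 2 ≥ V` unless `y = 0`.
`y = 0` is impossible: then `cj α * β = c ∈ ℤ` (`Q.Y_eq_zero_iff`), so `nn α * β = c α`; divide by the
gcd: `u β = v α` with coprime integers `u, v`, `u > 0`.  If a
prime `p ∣ u`, then `p ∤ v`, `1 = i v + j p`, `α = i v α + j p α = p (i (u / p) β + j α) ∈ p a²`, so
`(p) a² ∣ (α)`, against `Cont1` of `α`.  So `u = 1`, and in the same way `v = ± 1`; `Y α, Y β > 0` give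
`α = β`.  `π R ^ 2 / V = 2 π T / (f r s)`. -/
def LP : Prop := ∀ (K : Type) [Field K] [NumberField K] (Q : QF K) (a : Ideal (𝓞 K)) (T : ℝ)
  (f r : ℕ), Q.D < 0 → a ≠ ⊥ → 0 < T → 1 ≤ f → Nat.Coprime f (r * Ideal.absNorm a) →
  Squarefree r → ¬ 2 ∣ r → (∀ p : ℕ, p.Prime → p ∣ r → (p : ℤ) ∣ Q.D) →
  ∀ S : Finset (𝓞 K), (∀ α ∈ S, α ∈ AL Q a T ∧ Cont1 a α ∧ (f : ℤ) ∣ Q.Y α ∧
    r * Ideal.absNorm a ^ 2 ∣ nn α) →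
  (S.card : ℝ) ≤ 1 + 2 * Real.pi * T / (f * r * √|(Q.D : ℝ)|)

/-- ROW LFU.  From a point of content one to the structure `Full`.

PROOF.  `a² ∣ (α)`: `(α) = a² L` (`Ideal.dvd_iff_le`), `L` is primitive: if `(q) ∣ L` then
`(q) a² ∣ (α)`.  `(γ) a ^ 5 = (γ) (θ) = (Z) (α) ^ 2 = a bar a a ^ 4 L ^ 2`
(`Q.mul_bar`), cancel `a ^ 5`: `(γ) = bar a L ^ 2`.  `exists_full_of` gives `F` with
`F.a = a`, `F.β = α`, `F.γ = γ`.  `F.Z > 0` and `F.Λ > 0` from `nβ, nγ` and `D < 0` (norms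
`x ^ 2 + t x y - k y ^ 2` are positive), so
`F.Z = absNorm a`.  Finally `γ θ = Z α ^ 2` gives `cj γ γ θ = Z α ^ 2 cj γ = Z Λ ^ 2 F.α` (`e3`) and
`γ cj γ = Z Λ ^ 2` (`nγ`): `F.α = θ`.  `F.Λ = absNorm L = nn α / Z ^ 2 = lamI a α`. -/
def LFU : Prop := ∀ (K : Type) [Field K] [NumberField K] (Q : QF K) (a : Ideal (𝓞 K))
  (θ α γ : 𝓞 K), Q.D < 0 → Prim a → a ≠ ⊥ → Ideal.span {θ} = a ^ 5 → α ≠ 0 → α ∈ a ^ 2 →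
  Cont1 a α → γ * θ = Ideal.absNorm a * α ^ 2 →
  ∃ F : Full Q, F.a = a ∧ F.β = α ∧ F.γ = γ ∧ F.α = θ ∧ F.Z = Ideal.absNorm a ∧
    F.Λ = lamI a α ∧ 0 < F.Λ

/-- ROW LRD (hypothesis `LXW`).  The ramified part of the greatest common divisor.

PROOF.  `d = gcd (n, k) > 0`, `n = Y F.β`, `k = Y F.γ`, `n ≠ 0`.  Let `p ∣ gcd (d, Z)` be prime.
`p ∣ Y F.β` and `p ∣ Z ^ 2 Λ = F.β * cj F.β`, so `p ∣ F.β` (`Q.dvd_of_dvd`), in the same way `p ∣ F.γ`.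
`Full.ramified`: a prime ideal `P` with `P * P = (p)`, `bar P = P`, `P ∣ a`, `P ∣ L`; `N P = p`.
(i) `p = N P ∣ N L`, so `p ∣ Λ`.  (ii) `p ∣ D`: `LXW` (3).  (iii) `p ^ 2 ∤ n`: `a = P a₁` with `P ∤ a₁`
(otherwise `(p) ∣ a`), `β = p β₁`, so `P² (β₁) = a² L = P² a₁² L`, `(β₁) = a₁² L`.  `P ∣ L` gives
`β₁ ∈ P`; if `p ∣ Y β₁` then `β₁ - Y β₁ ω ∈ P ∩ ℤ`, so `p ∣ β₁` (`LXW` (2)), `P² ∣ a₁² L`, `P² ∣ L`,
`(p) ∣ L`, against `pL`.  So `p ^ 2 ∤ d`.  Hence `r = gcd (d, Z)` is squarefree and coprime to `d / r`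
and `d / r` is coprime to `Z`. -/
def LRD : Prop := ∀ (K : Type) [Field K] [NumberField K] (Q : QF K) (F : Full Q),
  Q.Y F.β ≠ 0 → ∀ r e : ℕ, r = Nat.gcd (gd Q F.β F.γ) (Ideal.absNorm F.a) →
  gd Q F.β F.γ = r * e →
  Squarefree r ∧ Nat.Coprime e (r * Ideal.absNorm F.a) ∧
    (∀ p : ℕ, p.Prime → p ∣ r → (p : ℤ) ∣ Q.D ∧ (p : ℤ) ∣ F.Λ ∧ ¬ (p : ℤ) ^ 2 ∣ Q.Y F.β)

/-- ROW LCM (hypotheses `LAW`, `LEMB`).  The maximal content.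

PROOF.  `α ∈ a²`, `α ≠ 0`: `(α) = a² L`; let `j` be maximal with `(j) ∣ L` (`j ^ 2 ∣ absNorm L`, so there
is a maximum), `L = (j) L'`, `(α) = (j) (a² L')`, so `α = j α'` with `(α') = a² L'`
(`exists_div_aux`), `L'` is primitive by maximality, so `Cont1 a α'`; `Y α = j Y α'`,
`v₁ α = j v₁ α'`.  If a prime `p ≤ w` divides `j` then `p ∣ Y α` and `p ^ 2 ∣ Λ`, so `alw Q p a α`
fails (both alternatives). -/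
def LCM : Prop := ∀ (K : Type) [Field K] [NumberField K] (Q : QF K) (a : Ideal (𝓞 K)) (T : ℝ)
  (w : ℕ) (α : 𝓞 K), Q.D < 0 → Prim a → a ≠ ⊥ → α ∈ AL Q a T → (∀ p ∈ pr w, alw Q p a α) →
  ∃ (j : ℕ) (α' : 𝓞 K), 1 ≤ j ∧ α = j * α' ∧ Cont1 a α' ∧ α' ∈ AL Q a (T / (j : ℝ) ^ 2) ∧
    (j = 1 ∨ w < j)

/-- ROW LI (hypotheses `LP`, `LCM`).  Points of large content.

PROOF.  For `α ∈ S` let `j, α'` be as in `LCM`; `j ≠ 1` (otherwise `α = α'` has content one), so `j > w`.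
`NE`: `Z ^ 2 ℓ < v₁ α' ^ 2 ≤ Z ^ 2 T / j ^ 2`, `j < √(T / ℓ)`.  `LP` with `f = r = 1` and `T / j ^ 2`: the
number of `α'` for one `j` is at most `1 + 2 π T / (j ^ 2 s)`.  Sum over the integers
`w < j < √(T / ℓ)`: at most `√(T / ℓ) + 2 π T / (w s)`, since `∑ j > w, 1 / j ^ 2 ≤ 1 / w`. -/
def LI : Prop := ∀ (K : Type) [Field K] [NumberField K] (Q : QF K) (a : Ideal (𝓞 K))
  (w : ℕ) (ℓ T : ℝ), Q.D < 0 → Prim a → a ≠ ⊥ → 1 ≤ w → 0 < ℓ → 0 < T → NE Q a ℓ →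
  ∀ S : Finset (𝓞 K), (∀ α ∈ S, α ∈ AL Q a T ∧ (∀ p ∈ pr w, alw Q p a α) ∧ ¬ Cont1 a α) →
  (S.card : ℝ) ≤ √(T / ℓ) + 2 * Real.pi * T / (w * √|(Q.D : ℝ)|)

/-- ROW LII (hypothesis `LP`).  Points with a square divisor.

PROOF.  For one prime `p` with `w < p ≤ H`, `LP` with `f = p ^ 2` (coprime to `Z`), `r = 1` gives at most
`1 + 2 π T / (p ^ 2 s)` points; sum over the integers `w < p ≤ H`: at most
`H + 2 π T / (w s)`. -/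
def LII : Prop := ∀ (K : Type) [Field K] [NumberField K] (Q : QF K) (a : Ideal (𝓞 K))
  (w : ℕ) (H T : ℝ), Q.D < 0 → a ≠ ⊥ → 1 ≤ w → 1 ≤ H → 0 < T →
  ∀ S : Finset (𝓞 K), (∀ α ∈ S, α ∈ AL Q a T ∧ Cont1 a α ∧
    ∃ p : ℕ, p.Prime ∧ w < p ∧ (p : ℝ) ≤ H ∧ ¬ p ∣ Ideal.absNorm a ∧ (p : ℤ) ^ 2 ∣ Q.Y α) →
  (S.card : ℝ) ≤ H + 2 * Real.pi * T / (w * √|(Q.D : ℝ)|)

/-- ROW LIII (hypotheses `LP`, `LFU`, `LRD`, `LAW`).  Points with a large greatest common divisor.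

PROOF.  For `α ∈ S` take `F` from `LFU`.  `d = gd Q α γ ∣ Y θ` by `Full.gcd_dvd` (`F.α = θ`), `Y θ ≠ 0`:
`d` is one of the divisors of `|Y θ|`, and `d > H`.  For a fixed `d` let `r = gcd (d, Z)`, `e = d / r`
(`LRD`): `r` is squarefree, odd (`2 ∣ r` gives `2 ∣ Z` and `2 ∣ Λ = lamI a α`, against `alw` at `2 ≤ w`,
`LAW`), its primes divide `D` and `Λ`, so `r ∣ Λ`, `r Z ^ 2 ∣ nn α = Z ^ 2 Λ` (`LAW`), and `e ∣ Y α`, `e` is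
coprime to `r Z`.  `LP` with `f = e`: at most `1 + 2 π T / (d s) ≤ 1 + 2 π T / (H s)` such `α`. -/
def LIII : Prop := ∀ (K : Type) [Field K] [NumberField K] (Q : QF K) (a : Ideal (𝓞 K)) (θ : 𝓞 K)
  (w : ℕ) (H T : ℝ), Q.D < 0 → Prim a → a ≠ ⊥ → Ideal.span {θ} = a ^ 5 → Q.Y θ ≠ 0 →
  2 ≤ w → 1 ≤ H → 0 < T →
  ∀ S : Finset (𝓞 K), (∀ α ∈ S, α ∈ AL Q a T ∧ Cont1 a α ∧ (∀ p ∈ pr w, alw Q p a α) ∧
    ∃ γ : 𝓞 K, γ * θ = Ideal.absNorm a * α ^ 2 ∧ H < (gd Q α γ : ℝ)) →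
  (S.card : ℝ) ≤ ((Q.Y θ).natAbs.divisors.card : ℝ) *
    (1 + 2 * Real.pi * T / (H * √|(Q.D : ℝ)|))

/-- ROW LT4 (hypothesis `LP`).  The points attached to tuples of conductor prime to `Z Λ`.

PROOF.  For every `f > F₀` dividing `Y θ ≠ 0` (a divisor of `|Y θ|`) the number of `α` with
`(f, α) ∈ S` is at most `1 + 2 π T / (f s) ≤ 1 + 2 π T / (F₀ s)` by `LP` with `r = 1`. -/
def LT4 : Prop := ∀ (K : Type) [Field K] [NumberField K] (Q : QF K) (a : Ideal (𝓞 K)) (y : ℤ)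
  (F₀ T : ℝ), Q.D < 0 → a ≠ ⊥ → y ≠ 0 → 0 < F₀ → 0 < T →
  ∀ S : Finset (ℕ × 𝓞 K), (∀ v ∈ S, 1 ≤ v.1 ∧ F₀ < v.1 ∧ Nat.Coprime v.1 (Ideal.absNorm a) ∧
    (v.1 : ℤ) ∣ y ∧ v.2 ∈ AL Q a T ∧ Cont1 a v.2 ∧ (v.1 : ℤ) ∣ Q.Y v.2) →
  (S.card : ℝ) ≤ (y.natAbs.divisors.card : ℝ) * (1 + 2 * Real.pi * T / (F₀ * √|(Q.D : ℝ)|))

/-- ROW LYT (hypothesis `LEMB`).  The generator of `a ^ 5` is not rational; size of its second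
coordinate; the other generators.

PROOF.  If `θ = c ∈ ℤ` then `bar a ^ 5 = (cj θ) = (θ) = a ^ 5`, so `bar a = a` (`pow_inj`), so
`a ^ 2 = a * bar a = (Z)`, `a ^ 5 = (Z ^ 2) * a = (θ)` and `a` is principal (`exists_div_aux` with
`Z ^ 2`).  Size: `|Y θ| √|D| ≤ v₁ θ + v₂ θ = 2 v₁ θ` (`Q.Y_bound`, `Q.himag`) and
`(v₁ θ) ^ 2 = nn θ = Z ^ 5`.  Other generators: `θ' = ε θ` with a unit `ε = x + y ω` of norm one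
(`nn ε = 1`): `4 = (2 x + t y) ^ 2 + |D| y ^ 2`, `|D| > 4`, so `y = 0`, `x = ± 1`. -/
def LYT : Prop := ∀ (K : Type) [Field K] [NumberField K] (Q : QF K) (a : Ideal (𝓞 K)) (θ : 𝓞 K),
  Q.D < -4 → a ≠ ⊥ → Ideal.span {θ} = a ^ 5 → ¬ a.IsPrincipal →
  Q.Y θ ≠ 0 ∧ (Q.Y θ : ℝ) ^ 2 * |(Q.D : ℝ)| ≤ 4 * (Ideal.absNorm a : ℝ) ^ 5 ∧
    ∀ θ' : 𝓞 K, Ideal.span {θ'} = a ^ 5 → θ' = θ ∨ θ' = - θ

/-- ROW LGA.  Existence and divisibility of `γ`.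

PROOF.  `(Z β ^ 2) = a bar a (β) ^ 2 ⊆ a ^ 5 = (θ)` for `β ∈ a²` (`Q.mul_bar`), so `Z β ^ 2 = γ θ`; `θ ≠ 0`.
If `α = p β` then `γ θ = Z α ^ 2 = p ^ 2 Z β ^ 2 = p ^ 2 γ' θ`, `γ = p ^ 2 γ'`, so `p ∣ Y γ` and
`p ∣ Y α`: `gd Q α γ ≠ 1`.  (`(p) a² ∣ (α)` means `α = p β` with `β ∈ a²`:
`Ideal.mem_span_singleton_mul`.) -/
def LGA : Prop := ∀ (K : Type) [Field K] [NumberField K] (Q : QF K) (a : Ideal (𝓞 K)) (θ : 𝓞 K),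
  a ≠ ⊥ → Ideal.span {θ} = a ^ 5 → ∀ α ∈ a ^ 2,
  (∃ γ : 𝓞 K, γ * θ = Ideal.absNorm a * α ^ 2) ∧
    ∀ γ : 𝓞 K, γ * θ = Ideal.absNorm a * α ^ 2 → gd Q α γ = 1 → Cont1 a α

/-! ## the interface statements of `InterfaceB` -/

/-- ROW LF1 (hypothesis `L1`): `L1_stmt`.

PROOF.  `T = N ^ d √|D|`, `ℓ = N ^ (1/2 - d/2)`; `a ∉ EX` is `NE Q a ℓ` (`a ∈ IA K Y`).
`T / √|D| = N ^ d`.  `ρ = 2 W √|D| / √(ℓ T) = 2 W |D| ^ (1/4) / N ^ (1/4 + d/4) ≤ 2 W N ^ (- d/4)`, which is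
at most `1` and at most `ε / 18` for `N ≥ N₀ (w, d, ε)`.  The finset `F` is the `P` of `L1`. -/
def LF1 : Prop := ∀ d : ℝ, 0 < d → L1_stmt d

/-- ROW LF2 (hypotheses `L2`, `LEMB`, `LYT`, `LAW`): `L2_stmt`.

PROOF.  `T, ℓ, ρ` as in `LF1`.  `θ` a generator of `a ^ 5`.  Let `α ∈ F` and `γ` as given, with
`γ θ' = Z α ^ 2`; `θ' = ± θ` (`LYT`; `D < -4` for `N ≥ N₀`), so `± γ` satisfies the equation with `θ`.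
`nn α = Z ^ 2 Λ`, `Λ = lamI a α` (`LAW`), so `v₁ α = Z √Λ`; `v₁ γ v₁ θ = Z v₁ α ^ 2 = Z ^ 3 Λ` and
`v₁ θ ^ 2 = nn θ = Z ^ 5`, so `v₁ γ = √Z Λ`.  Not `GoodR κ (N ^ (1/2 + d))` means one of:
`Λ < κ N ^ (1/2 + d) ≤ √2 κ T` (`√|D| ≥ √(N/2)`), the first alternative of `BadDir` with `2 κ`;
`Y α √|D| < 2 κ Z √Λ = 2 κ v₁ α`; `|Y γ| √|D| < 2 κ v₁ γ`.  So `BadDir Q a θ (2 κ) T α` and `L2` gives
`∑ ≤ 100 (2 κ + ρ) N ^ d ≤ (200 κ + ε) N ^ d` for large `N`. -/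
def LF2 : Prop := ∀ d : ℝ, 0 < d → L2_stmt d

/-- ROW LFB (hypotheses `LI`, `LII`, `LIII`, `LYT`, `LRD`, `LFU`, `LAW`, `LEMB`): `LB_stmt`.

PROOF.  `T, ℓ` as in `LF1`, `H = N ^ (d / 100)`, `θ` a generator of `a ^ 5`, `γ θ = Z α ^ 2` after a change
of sign of `γ` (`LYT`; `gd` and the divisibilities do not change).  Split `F` into three parts:
(i) `¬ Cont1 a α`: `LI`, `√(T / ℓ) + 2 π N ^ d / w`, `√(T / ℓ) ≤ N ^ (3 d / 4)`;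
(ii) `Cont1 a α`, `gd Q α γ ≤ H`: then the first alternative of the hypothesis is impossible and so is
the third; so there is a prime `p > w` with `p ^ 2 ∣ Y α`, `p ∣ Y γ`; `p ∣ gd`, so `p ≤ H`; `p ∤ Z` by the
last clause of `LRD` (`F` from `LFU`): `LII`, `H + 2 π N ^ d / w`;
(iii) `Cont1 a α`, `gd Q α γ > H`: `LIII`.  `|Y θ| ^ 2 ≤ 4 Z ^ 5 ≤ 4 N ^ 5` (`LYT`, `|D| ≥ 1`,
`Z ≤ Y ≤ N`), so by `Pool.Agent.helper47.RA.card_divisors_le` the number of divisors is at most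
`C N ^ (d / 200)`, and `(1 + 2 π N ^ d / H) C N ^ (d / 200) ≤ 8 C N ^ (d - d / 200)`.
The sum is at most `(4 π / w + ε) N ^ d` for large `N`. -/
def LFB : Prop := ∀ d : ℝ, 0 < d → LB_stmt d

/-- ROW LFE (hypotheses `LP`, `LGA`): `LE_stmt`.

PROOF.  `gd Q α γ = 1` implies `Cont1 a α` (`LGA`).  `LP` with `f = r = 1`: `#F ≤ 1 + 2 π T / √|D| =
1 + 2 π N ^ d ≤ 8 N ^ d`. -/
def LFE : Prop := ∀ d : ℝ, 0 < d → LE_stmt d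

end Pool.Agent.helper26.T5
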