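import Pool.Agent.helper26.T5.SpecB
import Pool.Agent.helper3.FT.Fin

set_option autoImplicit false

/-!
# T5 (MP_16912e_nt), block L, part C: tuples of conductor prime to `Z Λ` (statements)
-/

namespace Pool.Agent.helper26.T5

open Finset NumberField Pool.Agent.helper3.FT Pool.Agent.helper47.RA Pool.Agent.T5

/-- ROW LTD (hypotheses `ALG_stmt`, `LT4`, `LFU`, `LYT`, `LAW`, `LEMB`).  The tuples over one field.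

PROOF.  `φ` from `ALG_stmt`.  For every `a ∈ IA K Y` fix a generator `θ_a` of `a ^ 5`; `IA K Y` is finite
(`Ideal.finite_setOf_absNorm_le`, norms at most `Y`).  For `t ∈ F` with `f` as in the hypothesis, the
third part of `ALG_stmt` gives `a, α, γ` with `Adm Q a α γ`, `gd Q α γ = f`, `φ a α = t`, `a ^ 5`
principal, `a` not principal (`Z > Y / 2 ≥ 1`, `4 Z ≤ 4 Y < - D`), and the first part gives `TupOf Q a α γ f t`, so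
`Z = absNorm a`, `lam t = lamI a α`; `a ∈ IA K Y`.  The following hold:
`α ∈ AL Q a X` (`v₁ α ^ 2 = nn α = Z ^ 2 lamI a α ≤ Z ^ 2 X`, by `LEMB`, `LAW`); `Cont1 a α` (`Adm.pL`);
`f ∣ Y α` (`f` is the gcd); `f` is coprime to `absNorm a`; and `f ∣ Y θ_a`: `Adm.ga` gives `θ'` with
`a ^ 5 = (θ')`, `γ θ' = Z α ^ 2`, `LFU` gives `G : Full Q` with `G.β = α`, `G.γ = γ`, `G.α = θ'`, and
`Full.gcd_dvd` gives `f ∣ Y θ'`, `θ' = ± θ_a` (`LYT`).  For a fixed `a` the map `t ↦ (f, α)` is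
injective (`t = φ a α`), so by `LT4` with `y = Y θ_a` (`y ≠ 0`, `y ^ 2 |D| ≤ 4 Z ^ 5 ≤ 4 Y ^ 5`: `LYT`),
`F₀ = B`, `T = X` the number of `t` with this `a` is at most `τ (1 + 2 π X / (B √|D|))`.  Sum over
`a ∈ IA K Y`. -/
def LTD : Prop := ∀ (K : Type) [Field K] [NumberField K] (Q : QF K), Module.finrank ℚ K = 2 →
  Q.D < -4 → ∀ Y X B τ : ℝ, 2 ≤ Y → 4 * Y < -(Q.D : ℝ) → 0 < X → 0 < B → 0 ≤ τ →
  (∀ y : ℤ, y ≠ 0 → (y : ℝ) ^ 2 * |(Q.D : ℝ)| ≤ 4 * Y ^ 5 → (y.natAbs.divisors.card : ℝ) ≤ τ) →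
  ∀ F : Finset Tpl, (∀ t ∈ F, IsT t ∧ Y / 2 < t.2.2.2 ∧ (t.2.2.2 : ℝ) ≤ Y ∧ 0 < t.2.2.2 ∧
    0 < lam t ∧ (lam t : ℝ) ≤ X ∧ ∃ f : ℕ, 1 ≤ f ∧ B < f ∧ dis t = Q.D * (f : ℤ) ^ 2 ∧
      IsCoprime (f : ℤ) (t.2.2.2 * lam t)) →
  (F.card : ℝ) ≤ (IA K Y).ncard * (τ * (1 + 2 * Real.pi * X / (B * √|(Q.D : ℝ)|)))

open Classical in
/-- ROW LUS (hypothesis `U_stmt`).  The bound `U` for all discriminants up to `M`.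

PROOF.  `D ∈ Icc (-⌊M⌋) (-1)` lies in `DN (M / 2 ^ i)` for the `i` with
`M / 2 ^ (i + 1) < - D ≤ M / 2 ^ i`, and `M / 2 ^ i ≥ - D ≥ 1`.  `U_stmt` gives
`∑ i, C (M Y / 2 ^ i) ^ ε Y √M / √2 ^ i ≤ 4 C (M Y) ^ ε Y √M` (the sum over the finitely many `i` with
`2 ^ i ≤ M`; `∑ √2 ^ (-i) ≤ 1 / (1 - 1 / √2) < 4`). -/
def LUS : Prop := ∀ ε : ℝ, 0 < ε → ∃ C : ℝ, 1 ≤ C ∧ ∀ M Y : ℝ, 1 ≤ M → 1 ≤ Y →
  ∑ D ∈ (Icc (-⌊M⌋) (-1)).filter IsFund, (cA D Y : ℝ) ≤ C * (M * Y) ^ ε * (Y * √M)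

/-- ROW LFT (hypotheses `LTD`, `LUS`): `T4_stmt`.

PROOF.  Let `d = δ / 100`.  If `1/2 - δ < 0.39` the range of `Y` is empty (`N > 1`), so `δ ≤ 0.11`.
Put `H = N ^ (δ / 10000)`, `X = N ^ (1/2 + d)`.  Let `F` be as in `T4_stmt`.
For `t ∈ F` choose `f = f_t`, `D = D_t`.  `0 < lam t` (`κ X ≤ lam t`),
`lam t ≤ X √(- dis t) / √N ≤ X`.  `- D = (- dis t) / f ^ 2`, so `N / (2 f ^ 2) < - D ≤ N / f ^ 2 ≤ M`,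
`M := N ^ (1 - δ / 5000) = N / H ^ 2`, `D < 0`.  Since `f ≤ X / Y`,
`- D > N Y ^ 2 / (2 X ^ 2) = Y ^ 2 N ^ (- δ / 50) / 2 ≥ 4 Y` and `> 4` for `N ≥ N₀` (`Y ≥ N ^ 0.39`,
`δ / 50 ≤ 0.0022`).  For a fixed `D` (the field is `h.some` of `Fld D`, non empty by `exists_QF`) apply
`LTD` with `B = √(N / (2 |D|))` (`f > B`), `B √|D| = √(N / 2)`,
`1 + 2 π X / √(N / 2) ≤ 10 N ^ d`, and `τ = C₁ (2 Y ^ (5/2)) ^ η ≤ C₁ (2 N ^ (5/4)) ^ η` from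
`Pool.Agent.helper47.RA.card_divisors_le` (`|y| ≤ 2 Y ^ (5/2)`), `η = δ / 200000`.  Sum over `D` with
`LUS` (`ε = η`):
`#F ≤ C₂ (M Y) ^ η Y √M * τ * 10 N ^ d`, `√M = N ^ (1/2 - δ / 10000)`,
`(M Y) ^ η τ ≤ C₃ N ^ (4 η)`, `4 η = δ / 50000`.  So
`#F ≤ C₄ N ^ (δ / 50000 - δ / 10000) Y X ≤ N ^ (-c) Y X` with `c = δ / 20000` for `N ≥ N₀`. -/
def LFT : Prop := ∀ δ : ℝ, 0 < δ → T4_stmt δ

end Pool.Agent.helper26.T5
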