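import Pool.Agent.helper26.T5.SpecB
import Pool.Agent.helper3.T5.SpecA
import Pool.Agent.helper8.T5.SpecU
import Pool.Agent.helper3.FT.Fin
import Pool.Agent.helper26.LT.TA
import Pool.Agent.helper26.LT.FA
import Pool.Agent.helper83.LT.FC

set_option autoImplicit false

/-!
# T5 (MP_16912e_nt), block H: large conductors (`T3_stmt`)

Every `def X : Prop` below is a row.  The proof is written out in its docstring.  A row is a file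
`Pool/Agent/<seat>/T5/<X>.lean` with `theorem x : X` (the statements named in the docstring may be
taken as hypotheses `(h : Y)`, nothing else).  Useful library: everything named in
`Pool/Agent/helper3/T5/SpecA.lean`, and `Pool.Agent.helper28.LT.unit_pow` (a unit `ε` has
`ε ^ 12 = 1`, `D < 0`), `Pool.Agent.helper28.LT.FA_split`, `FC_ideal`, `FC_class`, `FC_class_le`,
`Pool.Agent.helper47.RA.card_divisors_le`.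
-/

namespace Pool.Agent.helper26.T5

open Finset NumberField Pool.Agent.helper3.FT Pool.Agent.helper47.RA Pool.Agent.T5
open Pool.Agent.helper28.LT (rad)

/-- ROW HLN.  Five lines modulo `p`.

PROOF.  `z = x + y ω`: `Y (z ^ 5) = y H(x, y)` with
`H(x, y) = 5 x ^ 4 + 10 b₂ x ^ 3 y + 10 b₃ x ^ 2 y ^ 2 + 5 b₄ x y ^ 3 + b₅ y ^ 4`, `b_j = Y (ω ^ j)` (binomial
theorem, `Y` is additive, `Y ω = 1`, `Y 1 = 0`).  The polynomial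
`P = 5 X ^ 4 + 10 b₂ X ^ 3 + 10 b₃ X ^ 2 + 5 b₄ X + b₅` over `ZMod p` is not zero (`p > 5`), so it has at most
four roots.  `lab z` := `5` if `p ∣ x` and `p ∣ y`; `4` if `p ∣ y`, `p ∤ x`; if `p ∤ y`: the number in
`{0, 1, 2, 3}` of the root `x / y` in a fixed enumeration of the roots (`0` if `x / y` is not a root).
`Y (cj z * z') = x y' - x' y`.  Equal labels: `5`: `p ∣ x, y, x', y'`; `4`: `p ∣ y, y'`; otherwise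
`p ∤ y, y'`, and `p ∣ Y (z ^ 5)` makes `x / y` a root, so `x / y = x' / y'` in `ZMod p`. -/
def HLN : Prop := ∀ (K : Type) [Field K] [NumberField K] (Q : QF K) (p : ℕ), p.Prime → 5 < p →
  ∃ lab : 𝓞 K → Fin 6, ∀ z z' : 𝓞 K, (p : ℤ) ∣ Q.Y (z ^ 5) → (p : ℤ) ∣ Q.Y (z' ^ 5) →
    lab z = lab z' → (p : ℤ) ∣ Q.Y (Q.cj z * z')

/-- ROW HSQ (hypotheses `ARAM_stmt`, `ASQF_stmt` of block A).

PROOF.  `p ∣ D`: `ARAM_stmt`.  `p ∤ D`: `z ^ 5 * cj (z ^ 5) = N ^ 5` is divisible by `p` and `p ∣ Y (z ^ 5)`, so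
`p ∣ z ^ 5` (`QF.dvd_of_dvd`), so `p ∣ z` (`ASQF_stmt`). -/
def HSQ : Prop := ∀ (K : Type) [Field K] [NumberField K] (Q : QF K) (p : ℕ) (z : 𝓞 K) (N : ℤ),
  p.Prime → z * Q.cj z = (N : 𝓞 K) → (p : ℤ) ^ 2 ∣ N → (p : ℤ) ∣ Q.Y (z ^ 5) → (p : 𝓞 K) ∣ z

/-- ROW HSU.  Powers of a sum of ideals.

PROOF.  `G = I ⊔ J`; if `G = ⊥` then `I = J = ⊥` (clear; `n = 0`: both sides `⊤`).  Otherwise
`I = G I'`, `J = G J'` (`Ideal.dvd_iff_le`), `G (I' ⊔ J') = G` (`Ideal.mul_sup`), so `I' ⊔ J' = ⊤`, so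
`I' ^ n ⊔ J' ^ n = ⊤` (`IsCoprime.pow`), multiply by `G ^ n`. -/
def HSU : Prop := ∀ (R : Type) [CommRing R] [IsDedekindDomain R] (I J : Ideal R) (n : ℕ),
  (I ⊔ J) ^ n = I ^ n ⊔ J ^ n

/-- ROW HID (hypotheses `HSU`, `ARAM_stmt`).  The generator `θ` is a fifth power outside `f`.

PROOF.  `Z = t.2.2.2 = b g`, `Λ = lam t`, `a = span {α, γ̄, g}`.
(M) `M = span {α, ᾱ, γ, γ̄, g, b Λ²}` is `⊤`: otherwise `M ≤ P` maximal, `P ∩ ℤ = p ℤ`; `p ∣ g`, so `p ∤ f`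
and `p ∤ b`, so `p ∣ Λ`.  `α - ᾱ = f n δ`, `γ - γ̄ = f k δ` are in `P` (`δ = 2 ω - t`, `QF.sub_cj`), `n, k` are
coprime, `p ∤ f`, so `δ ∈ P`, `D = δ² ∈ P`, `p ∣ D`.  `p² ∣ N α = Z² Λ, N γ = Z Λ²`; ARAM: `p ∣ α, γ`, so
`p ∣ f n, f k`, contradiction.
(a) `a ā = (g)`: the products of the generators are in `(g)` (`α ᾱ = Z² Λ`, `α γ = Z v`, `γ γ̄ = Z Λ²`, and
products with `g`); and `a ā` contains `g α, g ᾱ, g γ, g γ̄, g², γ γ̄ = g b Λ²`, so `(g) M ≤ a ā`.  So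
`absNorm a ^ 2 = g ^ 2`.
(b) Cancel nonzero integers: `θ θ̄ = Z⁵`, `α⁵ = θ² θ'`, `γ⁵ = θ̄ θ'²` (from `Λ² θ = α² γ̄`, `Z² θ' = γ² α`,
`α ᾱ = Z² Λ`, `γ γ̄ = Z Λ²`), so `γ̄⁵ = θ θ̄'²`.
(c) `HSU`: `a ^ 5 = (α⁵) ⊔ (γ̄⁵) ⊔ (g⁵)`, so `(b⁵) a⁵ ≤ (θ)` (`b⁵ g⁵ = θ θ̄`), so `(b⁵) a⁵ = (θ) B`.  Norms:
`b ^ 10 g ^ 5 = Z ^ 5 N B`, `N B = b ^ 5`.  `b⁵ ∈ B`, `g ∈ a`, `b` and `g` coprime: `B` is coprime to `a⁵`, so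
`B ∣ (b⁵)`, `(b⁵) = B A`, cancel `B`: `A a⁵ = (θ)`, and `N A = b ^ 5`.
(d) `(q) ∣ a` gives `q ∣ α, γ̄, g`, `q ∤ f`, `q ∣ f n, f k`: contradiction. -/
def HID : Prop := ∀ (K : Type) [Field K] [NumberField K] (Q : QF K) (f : ℕ) (t : Tpl)
  (α γ u v θ θ' : 𝓞 K), Q.D < 0 → IsT t → 1 ≤ f → 0 < t.2.2.2 → 0 < lam t →
  Els Q f t α γ u v θ θ' → ∀ b g : ℕ, 1 ≤ b → 1 ≤ g → t.2.2.2 = (b : ℤ) * g → Nat.Coprime g f →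
  (∀ p : ℕ, p.Prime → p ∣ b → p ∣ f) →
  ∃ a A : Ideal (𝓞 K), a ≠ ⊥ ∧ Prim a ∧ Ideal.absNorm a = g ∧ Ideal.absNorm A = b ^ 5 ∧
    Ideal.span {θ} = a ^ 5 * A

/-- ROW HPR.  Primitive ideals which differ by a rational factor are equal.

PROOF.  Divide by the gcd of `m` and `c`: `(m') a = (c') a'` with coprime `m', c'`.  If a prime `q ∣ m'`
then `(q) ∣ (c') a'` and `(q), (c')` are coprime, so `(q) ∣ a'`: impossible.  So `m' = 1`, in the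
same way `c' = 1`. -/
def HPR : Prop := ∀ (K : Type) [Field K] [NumberField K] (a a' : Ideal (𝓞 K)) (m c : ℕ),
  1 ≤ m → 1 ≤ c → Prim a → Prim a' →
  Ideal.span {(m : 𝓞 K)} * a = Ideal.span {(c : 𝓞 K)} * a' → a = a'

/-- ROW HGA (hypotheses `LEMB`, `LPR`, `HLN`, `HPR`).  The ideals `a` in one class.

PROOF.  Let `S` be non empty, `a₀ ∈ S`, `g₀ = absNorm a₀`, `θ₀, θ_a` the given generators.  For `a ≠ a₀` in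
`S`: `a ā₀ = (z_a)`.  `(z_a ^ 5) (b ^ 5) = a⁵ ā₀⁵ A Ā = (θ_a θ̄₀)` (`Q.mul_bar` for `A`), so
`θ_a θ̄₀ = ε b ^ 5 z_a ^ 5` with a unit `ε`, `ε ^ 12 = 1`, `ε = (ε ^ 5) ^ 5`; replacing `z_a` by `ε ^ 5 z_a` we
get `θ_a θ̄₀ = b ^ 5 z_a ^ 5`.  For `p ∣ f`, `p ∤ b`: `p ∣ Y θ_a, Y θ₀`, so `p ∣ Y (θ_a θ̄₀) = b ^ 5 Y (z_a ^ 5)`
(`QF.h96_Y_mul`, `QF.h96_Y_cj`), so `p ∣ Y (z_a ^ 5)`.  `Y z_a ≠ 0`: otherwise `z_a = c ∈ ℤ`,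
`(g₀) a = a ā₀ a₀ = (c) a₀`, `HPR`: `a = a₀`.  Replace `z_a` by `± z_a` so that `Y z_a > 0`.
Labels: for every prime `p ∣ f` take `lab_p` of `HLN`; `a ↦ (lab_p z_a)_p` has at most `6 ^ ω` values
(`ω = f.primeFactors.card`).  Let `T` be a set of `a ≠ a₀` with the same labels.  For `a ≠ a'` in `T`:
`(z̄_a z_a') = ā a₀ a' ā₀ = (g₀) ā a'`, so `z̄_a z_a' = g₀ x`; for `p ∣ f`, `p ∤ b`: `p ∣ g₀ Y x` (`HLN`),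
`p ∤ g₀`, so `p ∣ Y x`; so `r ∣ Y x` with `r = ∏ (p ∣ f, p ∤ b) p`.  `Y x ≠ 0`: otherwise
`z̄_a z_a' = c ∈ ℤ`, `N(z_a) z_a' = c z_a`, `(N) a' ā₀ = (c) a ā₀`, cancel `ā₀`, `HPR`: `a = a'`.
`LPR` for `E z_a`, `a ∈ T`: `‖E z_a‖ ^ 2 = N(a) g₀ ≤ (Y / b) g₀ =: R ^ 2`,
`|Im (conj (E z_a) E z_a')| = g₀ |Y x| √|D| / 2 ≥ V := g₀ r √|D| / 2`.  So
`#T ≤ 1 + 2 π Y / (b r √|D|) ≤ 1 + 2 π Y / (rad f √|D|)`, because `rad f ∣ b r`. -/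
def HGA : Prop := ∀ (K : Type) [Field K] [NumberField K] (Q : QF K) (f b : ℕ) (A : Ideal (𝓞 K))
  (Y : ℝ), Q.D < 0 → 1 ≤ f → (∀ p : ℕ, p.Prime → p ∣ f → 5 < p) → 1 ≤ b →
  Ideal.absNorm A = b ^ 5 → 0 < Y → ∀ S : Finset (Ideal (𝓞 K)),
  (∀ a ∈ S, a ≠ ⊥ ∧ Prim a ∧ Nat.Coprime (Ideal.absNorm a) f ∧
    (b : ℝ) * Ideal.absNorm a ≤ Y ∧ ∃ θ : 𝓞 K, Ideal.span {θ} = a ^ 5 * A ∧ (f : ℤ) ∣ Q.Y θ) →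
  (∀ a ∈ S, ∀ a' ∈ S, (a * Q.bar a').IsPrincipal) →
  (S.card : ℝ) ≤ 6 ^ f.primeFactors.card *
    (1 + 2 * Real.pi * Y / (rad f * √|(Q.D : ℝ)|)) + 1

/-- ROW HCL.  Sorting by classes.

PROOF.  `a ↦ [a] ∈ ClassGroup` (`ClassGroup.mk0`).  The fibre of a class is a set `T` as in the last
hypothesis (`[a] = [a']` and `a' ā' = (N a')`, so `[ā'] = [a']⁻¹` and `a ā'` is principal).  The classes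
which occur satisfy `c ^ 5 = [A]⁻¹`; they are at most `#Cl[5]` in number (`FC_class`, `FC_class_le`). -/
def HCL : Prop := ∀ (K : Type) [Field K] [NumberField K] (Q : QF K) (A : Ideal (𝓞 K)) (B : ℝ),
  A ≠ ⊥ → 0 ≤ B → ∀ S : Finset (Ideal (𝓞 K)), (∀ a ∈ S, a ≠ ⊥ ∧ (a ^ 5 * A).IsPrincipal) →
  (∀ T ⊆ S, (∀ a ∈ T, ∀ a' ∈ T, (a * Q.bar a').IsPrincipal) → (T.card : ℝ) ≤ B) →
  (S.card : ℝ) ≤ (Nat.card {x : ClassGroup (𝓞 K) // x ^ 5 = 1} : ℝ) * B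

/-- ROW HGT (hypotheses `LEMB`, `LPR`, `HLN`, `HSQ`).  The tuples with given `θ`.

PROOF.  `θ θ̄ = Z⁵` (cancel: `Λ⁴ θ θ̄ = (α ᾱ)² γ γ̄ = Z⁵ Λ⁴`), so `Z > 0` is the same for all `t ∈ F`; also
`α⁵ = θ² θ'`.  `t` is determined by `α_t`: `α ᾱ = Z² Λ` gives `Λ`, `Λ² θ = α² γ̄` gives `γ`, then `Y α = f n`,
`Y γ = f k`, `α γ̄ = Λ u`, `α γ = Z v` give `n, k, m, g`.
For `s, t ∈ F`: `(ᾱ_s α_t)⁵ = θ̄² θ̄'_s θ² θ'_t = Z ^ 10 θ̄'_s θ'_t`, so `Z² ∣ ᾱ_s α_t` in `𝓞 K` (the ideals: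
`(Z²)⁵ ∣ (ᾱ_s α_t)⁵`, `UniqueFactorizationMonoid.pow_dvd_pow_iff_dvd`): `ᾱ_s α_t = Z² x_st`,
`x_st ^ 5 = θ̄'_s θ'_t`, `f ∣ Y (x_st ^ 5)` (`Y θ' = f R'`), `N x_st = Λ_s Λ_t`.
`Y x_st ≠ 0` for `s ≠ t`: otherwise `x_st = c ∈ ℤ` and `α_t Λ_s = α_s c` (multiply `ᾱ_s α_t = Z² c` by
`α_s`): `α_t = ρ α_s` with `ρ ∈ ℚ`, `ρ > 0` (`Y α > 0`), `γ_t = ρ² γ_s` (`θ γ = Z α²`), so
`n_t = ρ n_s`, `k_t = ρ² k_s`, and `gcd (n, k) = 1` for both gives `ρ = 1` (`ρ = u / v` in lowest terms: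
`u ∣ n_t`, `u² ∣ k_t`, `v ∣ n_s`, `v² ∣ k_s`), `α_t = α_s`, `t = s`.
Labels at a prime `p ∣ f`: if some element of `F` has `p ∤ Λ` choose one, `i_p`.  The label of `t` is
`none` if `p ∣ Λ_t`, otherwise `some (lab_p (x_{i_p t}))` (`HLN`): at most `7` values, so at most
`7 ^ ω` systems of labels.  Let `s ≠ t` have the same labels.  `p ∣ Y x_st` for every `p ∣ f`:
if both labels are `none` then `p² ∣ Λ_s Λ_t = N x_st`, `p ∣ Y (x_st ^ 5)`, `HSQ`: `p ∣ x_st`; otherwise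
`p ∣ Y (x̄_{i s} x_{i t})`, and `x̄_{i s} x_{i t} = Λ_i x_st` (`i = i_p`; `α_i ᾱ_s ᾱ_i α_t = Z⁴ ...`,
`α_i ᾱ_i = Z² Λ_i`), `p ∤ Λ_i`.  So `rad f ∣ Y x_st`.
`LPR` for the `E α_t` with one system of labels: `‖E α_t‖ ^ 2 = Z² Λ_t ≤ Z² X`, `Im (E α_t) > 0`,
`|Im (conj (E α_s) E α_t)| = Z² |Y x_st| √|D| / 2 ≥ V := Z² rad f √|D| / 2`: at most
`1 + 2 π X / (rad f √|D|)` tuples. -/
def HGT : Prop := ∀ (K : Type) [Field K] [NumberField K] (Q : QF K) (f : ℕ) (θ : 𝓞 K) (X : ℝ),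
  Q.D < 0 → 1 ≤ f → (∀ p : ℕ, p.Prime → p ∣ f → 5 < p) → 0 < X → ∀ F : Finset Tpl,
  (∀ t ∈ F, IsT t ∧ 0 < t.2.2.2 ∧ 0 < lam t ∧ (lam t : ℝ) ≤ X ∧
    ∃ α γ u v θ' : 𝓞 K, Els Q f t α γ u v θ θ') →
  (F.card : ℝ) ≤ 7 ^ f.primeFactors.card * (1 + 2 * Real.pi * X / (rad f * √|(Q.D : ℝ)|))

/-- ROW HFD (hypotheses `AELE_stmt`, `HID`, `HCL`, `HGA`, `HGT`).  The tuples of discriminant
`D f ^ 2` for one field and one `f`.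

PROOF.  For `t ∈ F` take the elements (`AELE_stmt`), `Z = b g` (`FA_split`), `a, A` (`HID`).  `b ∣ M`
(`b ≤ Z ≤ Y`), `A ∣ (b ^ 5) ∣ (M ^ 5)` (`absNorm A ∈ A`).  So there are at most `τ(M) τ(M ^ 5) ^ 2` pairs
`(b, A)` (`FC_ideal`).  For a fixed pair the number of ideals `a` is at most
`#Cl[5] (6 ^ ω (...) + 1)` by `HCL` and `HGA` (`a ^ 5 * A = (θ)`, `f ∣ Y θ`, `b absNorm a = Z ≤ Y`,
`absNorm a = g` is coprime to `f`).  For a fixed triple `(b, A, a)` all `θ_t` generate the same ideal: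
`θ_t = ε θ`, `ε ^ 12 = 1` (`unit_pow`), at most `12` values of `θ_t` (roots of `X ^ 12 - 1`), and `HGT` for
each. -/
def HFD : Prop := ∀ (K : Type) [Field K] [NumberField K] (Q : QF K) (f M : ℕ) (Y X : ℝ),
  Module.finrank ℚ K = 2 → Q.D < 0 → 1 ≤ f → (∀ p : ℕ, p.Prime → p ∣ f → 5 < p) → 0 < Y → 0 < X →
  1 ≤ M → (∀ b : ℕ, 1 ≤ b → (b : ℝ) ≤ Y → (∀ p : ℕ, p.Prime → p ∣ b → p ∣ f) → b ∣ M) →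
  ∀ F : Finset Tpl, (∀ t ∈ F, IsT t ∧ 0 < t.2.2.2 ∧ (t.2.2.2 : ℝ) ≤ Y ∧ 0 < lam t ∧
    (lam t : ℝ) ≤ X ∧ dis t = Q.D * (f : ℤ) ^ 2) →
  (F.card : ℝ) ≤ (M.divisors.card : ℝ) * ((M ^ 5).divisors.card : ℝ) ^ 2 *
    ((Nat.card {x : ClassGroup (𝓞 K) // x ^ 5 = 1} : ℝ) *
      (6 ^ f.primeFactors.card * (1 + 2 * Real.pi * Y / (rad f * √|(Q.D : ℝ)|)) + 1)) *
    (12 * (7 ^ f.primeFactors.card * (1 + 2 * Real.pi * X / (rad f * √|(Q.D : ℝ)|))))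

/-- ROW HSM.  Sums over `f`.

PROOF.  `j = ⌈1/η⌉₊ ≥ 1`.  For `f ∈ s` and a prime power `p ^ e ∣ f`: `N ^ (η e) < p ^ e ≤ f ≤ √N` gives
`e < 1/η ≤ j` (if `N = 1` then `f ≤ 1`, impossible as `p₀ < f`, so `N > 1`), so `f ∣ (rad f) ^ j`; so for
every `r` the number of `f ∈ s` with `rad f = r` is at most `τ(r ^ j) ≤ C₁ r ^ (ε/2)`
(`card_divisors_le` with the exponent `ε / (2 j)`).  (1) `∑ f > p₀, 1 / f ^ 2 ≤ 2 / p₀`.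
(2) `1 / (f rad f) ≤ (1 / p₀) / rad f` and `∑ 1 / rad f ≤ ∑ r ≤ √N, C₁ N ^ (ε/4) / r ≤
C₁ N ^ (ε/4) (1 + log N) ≤ C N ^ ε`.  (3) every `f ∈ s` is `> 1`, so `rad f > N ^ η`, and
`∑ 1 / (rad f) ^ 2 ≤ C₁ N ^ (ε/4) ∑ r > N ^ η, 1 / r ^ 2 ≤ 2 C₁ N ^ (ε/4 - η)`. -/
def HSM : Prop := ∀ η ε : ℝ, 0 < η → 0 < ε → ∃ C : ℝ, 1 ≤ C ∧ ∀ N p₀ : ℝ, 1 ≤ N → 1 ≤ p₀ →
  ∀ s : Finset ℕ, (∀ f ∈ s, p₀ < f ∧ (f : ℝ) ^ 2 ≤ N ∧ ∀ p : ℕ, p.Prime → p ∣ f → N ^ η < p) →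
  ∑ f ∈ s, 1 / (f : ℝ) ^ 2 ≤ 2 / p₀ ∧
  ∑ f ∈ s, 1 / ((f : ℝ) * rad f) ≤ C * N ^ ε / p₀ ∧
  ∑ f ∈ s, 1 / (rad f : ℝ) ^ 2 ≤ C * N ^ (ε - η)

/-- ROW HDV.  The divisors `b`, and the constants.

PROOF.  `j = ⌈1/η⌉₊`.  A prime power `p ^ e ∣ b` has `N ^ (η e) < p ^ e ≤ b ≤ N`, so `e < 1/η ≤ j`
(`N > 1`, because `f > 1` and `f ^ 2 ≤ N`), and `p ∣ f`, so `b ∣ f ^ j`.  `N ^ (η ω) ≤ ∏ p ≤ f ≤ N`, so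
`ω ≤ 1/η`, `7 ^ ω ≤ 7 ^ (1/η)`.  Divisor bound for `f ^ j` and `f ^ (5 j)` with exponents `ε / (6 j)` resp.
`ε / (30 j)`. -/
def HDV : Prop := ∀ η ε : ℝ, 0 < η → 0 < ε → ∃ (j : ℕ) (C : ℝ), 1 ≤ C ∧ ∀ (N : ℝ) (f : ℕ), 1 < f →
  (f : ℝ) ^ 2 ≤ N → (∀ p : ℕ, p.Prime → p ∣ f → N ^ η < p) →
  (∀ b : ℕ, 1 ≤ b → (b : ℝ) ≤ N → (∀ p : ℕ, p.Prime → p ∣ b → p ∣ f) → b ∣ f ^ j) ∧
  ((7 : ℝ) ^ f.primeFactors.card ≤ C) ∧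
  (((f ^ j).divisors.card : ℝ) * (((f ^ j) ^ 5).divisors.card : ℝ) ^ 2 ≤ C * N ^ ε)

/-- ROW HSD (hypotheses `HFD`, `HDV`, `UFT_stmt`).  One `f`, all discriminants.

PROOF.  For every `t ∈ F` the number `D = D_t` is determined (`dis t = D f ^ 2`); the set `s` of the
`D_t` consists of negative fundamental discriminants with `N / (2 f ^ 2) < - D ≤ N / f ^ 2`;
`Fld D` is nonempty by `exists_QF` (`Pool/Agent/helper3/FT/Fin.lean`).  `M = f ^ j` from `HDV`; `HFD` for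
every `D ∈ s`.  `√|D| > √N / (√2 f)`, so `2 π Y / (rad f √|D|) ≤ 9 Y g / √N`, `g = f / rad f` (real
number), the same for `X`; `6 ^ ω (1 + u) + 1 ≤ 2 * 7 ^ ω (1 + u)`.  Sum over `D` with `UFT_stmt`
(`N / f ^ 2 ≥ - D ≥ 1`): `∑ #Cl[5] ≤ C (N / f ^ 2) ^ (1 + ε) ≤ C N ^ (1 + ε) / f ^ 2`. -/
def HSD : Prop := ∀ η ε : ℝ, 0 < η → 0 < ε → ∃ C : ℝ, 1 ≤ C ∧ ∀ (N Y X : ℝ) (f : ℕ), 1 < f →
  (f : ℝ) ^ 2 ≤ N → 0 < Y → Y ≤ N → 0 < X → 5 ≤ N ^ η →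
  (∀ p : ℕ, p.Prime → p ∣ f → N ^ η < p) →
  ∀ F : Finset Tpl, (∀ t ∈ F, IsT t ∧ 0 < t.2.2.2 ∧ (t.2.2.2 : ℝ) ≤ Y ∧ 0 < lam t ∧
    (lam t : ℝ) ≤ X ∧ N / 2 < -(dis t : ℝ) ∧ -(dis t : ℝ) ≤ N ∧
    ∃ D₀ : ℤ, IsFund D₀ ∧ dis t = D₀ * (f : ℤ) ^ 2) →
  (F.card : ℝ) ≤ C * N ^ (1 + 2 * ε) / (f : ℝ) ^ 2 * (1 + 9 * Y * (f / rad f) / √N) *
    (1 + 9 * X * (f / rad f) / √N)

/-- ROW HFT (hypotheses `HSD`, `HSM`): `T3_stmt`.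

PROOF.  `d = δ / 100`, `η = δ / 10000`, `ε = δ / 10 ^ 7`, `X = N ^ (1/2 + d)`, `p₀ = X / Y ≥ 1`
(`Y ≤ N ^ (1/2 - δ)`).  If `δ > 0.11` the range of `Y` is empty for `N > 1`.  `κ X ≤ lam t`, so
`0 < lam t`, and `lam t √N ≤ X √(- dis t) ≤ X √N`.  Sort `F` by `f`: `p₀ < f`, `f ^ 2 ≤ N` (`|D₀| ≥ 1`).
`HSD` and expand `(1 + A g) (1 + B g) = 1 + (A + B) g + A B g ^ 2`, `A = 9 Y / √N ≤ 9`,
`B = 9 X / √N = 9 N ^ d`, `g / f ^ 2 = 1 / (f rad f)`, `g ^ 2 / f ^ 2 = 1 / (rad f) ^ 2`; `HSM`: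
`#F ≤ C N ^ (1 + 2 ε) (2 / p₀ + 18 N ^ d C N ^ ε / p₀ + 81 (Y X / N) C N ^ (ε - η))`, and
`N / p₀ = N Y / X = Y X N ^ (- 2 d)`.  So `#F ≤ C' Y X (N ^ (3 ε - d) + N ^ (3 ε - η)) ≤ N ^ (-c) Y X` with
`c = δ / 20000` for `N ≥ N₀`. -/
def HFT : Prop := ∀ δ : ℝ, 0 < δ → T3_stmt δ

end Pool.Agent.helper26.T5
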